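import Mathlib

namespace Pool.Agent.MP_5d33c3_co.H12

open Classical

variable {V : Type}

def Deg2 (K : SimpleGraph V) : Prop :=
  ∀ a b c d, K.Adj a b → K.Adj a c → K.Adj a d → b = c ∨ b = d ∨ c = d

def Deg3 (G : SimpleGraph V) : Prop :=
  ∀ a b c d e, G.Adj a b → G.Adj a c → G.Adj a d → G.Adj a e →
    b = c ∨ b = d ∨ b = e ∨ c = d ∨ c = e ∨ d = e

def Closed (K : SimpleGraph V) (W : Set V) : Prop :=
  ∀ a b, a ∈ W → K.Adj a b → b ∈ W

def TwoNb (K : SimpleGraph V) (a : V) : Prop :=
  ∃ b c, b ≠ c ∧ K.Adj a b ∧ K.Adj a c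

def Proper2 (K : SimpleGraph V) (t : V → V → ℕ) : Prop :=
  (∀ a b, t a b = t b a) ∧ (∀ a b, t a b < 2) ∧
    ∀ a b c, K.Adj a b → K.Adj a c → b ≠ c → t a b ≠ t a c

/-- delete one edge -/
def del (K : SimpleGraph V) (x y : V) : SimpleGraph V where
  Adj a b := K.Adj a b ∧ ¬ (a = x ∧ b = y) ∧ ¬ (a = y ∧ b = x)
  symm := ⟨fun a b h => ⟨h.1.symm, by tauto, by tauto⟩⟩
  loopless := ⟨fun a h => K.loopless.1 a h.1⟩

theorem del_adj (K : SimpleGraph V) (x y a b : V) :
    (del K x y).Adj a b ↔ K.Adj a b ∧ ¬ (a = x ∧ b = y) ∧ ¬ (a = y ∧ b = x) := Iff.rfl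

theorem del_lt (K : SimpleGraph V) {x y : V} (h : K.Adj x y) : del K x y < K := by
  refine lt_of_le_of_ne (fun a b hab => hab.1) ?_
  intro he
  have : (del K x y).Adj x y := by rw [he]; exact h
  exact this.2.1 ⟨rfl, rfl⟩

/-- restrict to the edges leaving from a closed set -/
def res (K : SimpleGraph V) (W : Set V) : SimpleGraph V where
  Adj a b := K.Adj a b ∧ a ∈ W ∧ b ∈ W
  symm := ⟨fun _ _ h => ⟨h.1.symm, h.2.2, h.2.1⟩⟩
  loopless := ⟨fun a h => K.loopless.1 a h.1⟩

theorem res_adj (K : SimpleGraph V) (W : Set V) (a b : V) :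
    (res K W).Adj a b ↔ K.Adj a b ∧ a ∈ W ∧ b ∈ W := Iff.rfl

theorem closed_reach (K : SimpleGraph V) (x : V) : Closed K {z | K.Reachable x z} :=
  fun _ _ ha hab => SimpleGraph.Reachable.trans ha hab.reachable

theorem Closed.mem_of_reach {K : SimpleGraph V} {W : Set V} (hW : Closed K W) {x z : V}
    (hx : x ∈ W) (h : K.Reachable x z) : z ∈ W := by
  obtain ⟨p⟩ := h
  induction p with
  | nil => exact hx
  | cons h _ ih => exact ih (hW _ _ hx h)

theorem flip_proper {K : SimpleGraph V} {t : V → V → ℕ} (ht : Proper2 K t) {Z : Set V}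
    (hZ : Closed K Z) :
    Proper2 K (fun a b => if a ∈ Z ∨ b ∈ Z then 1 - t a b else t a b) := by
  obtain ⟨h1, h2, h3⟩ := ht
  refine ⟨fun a b => ?_, fun a b => ?_, fun a b c hb hc hne => ?_⟩
  · simp only [or_comm (a := a ∈ Z), h1 a b]
  · have := h2 a b
    dsimp only
    split_ifs <;> omega
  · have e1 := h3 a b c hb hc hne
    have e2 := h2 a b
    have e3 := h2 a c
    have e4 : a ∈ Z ∨ b ∈ Z ↔ a ∈ Z := ⟨fun h => h.elim id fun h => hZ _ _ h hb.symm, Or.inl⟩
    have e5 : a ∈ Z ∨ c ∈ Z ↔ a ∈ Z := ⟨fun h => h.elim id fun h => hZ _ _ h hc.symm, Or.inl⟩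
    simp only [e4, e5]
    split_ifs <;> omega

/-- put the colour `d` on the pair `x, y` -/
noncomputable def upd (c : V → V → ℕ) (x y : V) (d : ℕ) : V → V → ℕ :=
  fun a b => if (a = x ∧ b = y) ∨ (a = y ∧ b = x) then d else c a b

theorem upd_symm {c : V → V → ℕ} (hc : ∀ a b, c a b = c b a) (x y : V) (d : ℕ) (a b : V) :
    upd c x y d a b = upd c x y d b a := by
  unfold upd
  rw [hc a b]
  congr 1
  apply propext
  tauto

theorem extend_proper {K : SimpleGraph V} {x y : V} (hxy : K.Adj x y) {t : V → V → ℕ}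
    (ht : Proper2 (del K x y) t) (d : ℕ) (hd : d < 2)
    (hx : ∀ z, K.Adj x z → z ≠ y → t x z ≠ d) (hy : ∀ z, K.Adj y z → z ≠ x → t y z ≠ d) :
    Proper2 K (upd t x y d) := by
  obtain ⟨h1, h2, h3⟩ := ht
  have hne := hxy.ne
  refine ⟨upd_symm h1 x y d, fun a b => ?_, fun a b c hb hc hne => ?_⟩
  · unfold upd
    split_ifs
    · exact hd
    · exact h2 a b
  · unfold upd
    have := h3 a b c
    simp only [del_adj] at this
    split_ifs with e1 e2 e2
    · grind
    · grind
    · grind
    · grind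

theorem even_of_invol [Fintype V] (R : SimpleGraph V) (S : Finset V)
    (h1 : ∀ a ∈ S, ∃ b, R.Adj a b) (h2 : ∀ a b c, R.Adj a b → R.Adj a c → b = c)
    (h3 : ∀ a b, R.Adj a b → a ∈ S) : Even S.card := by
  have := R.even_card_odd_degree_vertices
  convert this using 2
  ext a
  simp only [Finset.mem_filter, Finset.mem_univ, true_and]
  constructor
  · intro ha
    obtain ⟨b, hb⟩ := h1 a ha
    have : R.neighborFinset a = {b} := by
      ext c
      simp only [SimpleGraph.mem_neighborFinset, Finset.mem_singleton]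
      exact ⟨fun hc => h2 a c b hc hb, fun hc => hc ▸ hb⟩
    rw [← SimpleGraph.card_neighborFinset_eq_degree, this]
    simp
  · intro ha
    have : 0 < R.degree a := ha.pos
    obtain ⟨b, hb⟩ := (R.degree_pos_iff_exists_adj a).1 this
    exact h3 a b hb

theorem twoCol [Fintype V] (K : SimpleGraph V) (h2 : Deg2 K)
    (hev : ∀ W : Finset V, Closed K W → (∀ a ∈ W, TwoNb K a) → Even W.card) :
    ∃ t, Proper2 K t := by
  induction K using WellFoundedLT.induction with
  | ind K ih =>
  have key : ∀ x y, K.Adj x y → ∃ t, Proper2 (del K x y) t := by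
    intro x y hxy
    refine ih _ (del_lt K hxy) (fun a b c d hb hc hd => h2 a b c d hb.1 hc.1 hd.1) ?_
    intro W hW hW2
    have hx : ∀ a ∈ W, a ≠ x ∧ a ≠ y := by
      intro a ha
      obtain ⟨b, c, hbc, hb, hc⟩ := hW2 a ha
      rw [del_adj] at hb hc
      constructor
      · rintro rfl
        have := h2 a b c y hb.1 hc.1 hxy
        grind
      · rintro rfl
        have := h2 a b c x hb.1 hc.1 hxy.symm
        grind
    refine hev W (fun a b ha hab => hW a b ha ⟨hab, ?_, ?_⟩) ?_
    · exact fun h => (hx a ha).1 h.1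
    · exact fun h => (hx a ha).2 h.1
    · intro a ha
      obtain ⟨b, c, hbc, hb, hc⟩ := hW2 a ha
      exact ⟨b, c, hbc, hb.1, hc.1⟩
  by_cases hleaf : ∃ x y, K.Adj x y ∧ ∀ z, K.Adj x z → z = y
  · obtain ⟨x, y, hxy, hx⟩ := hleaf
    obtain ⟨t, ht⟩ := key x y hxy
    by_cases hy : ∃ z, K.Adj y z ∧ z ≠ x
    · obtain ⟨z, hz, hzx⟩ := hy
      refine ⟨_, extend_proper hxy ht (1 - t y z) (by omega) (fun w hw hwy => (hwy (hx w hw)).elim)
        (fun w hw hwx => ?_)⟩
      have : w = z := by
        have := h2 y x w z hxy.symm hw hz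
        grind
      subst this
      have := ht.2.1 y w
      omega
    · exact ⟨_, extend_proper hxy ht 0 (by omega) (fun w hw hwy => (hwy (hx w hw)).elim)
        (fun w hw hwx => (hy ⟨w, hw, hwx⟩).elim)⟩
  · push Not at hleaf
    by_cases hE : ∃ x y, K.Adj x y
    swap
    · exact ⟨fun _ _ => 0, fun _ _ => rfl, fun _ _ => by simp, fun a b c hb => (hE ⟨a, b, hb⟩).elim⟩
    obtain ⟨x, y, hxy⟩ := hE
    obtain ⟨t, ht⟩ := key x y hxy
    obtain ⟨x', hx', hx'y⟩ := hleaf x y hxy
    obtain ⟨y', hy', hy'x⟩ := hleaf y x hxy.symm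
    have fin : ∀ t, Proper2 (del K x y) t → t x x' = t y y' → ∃ t, Proper2 K t := by
      intro t ht he
      have := ht.2.1 y y'
      refine ⟨_, extend_proper hxy ht (1 - t y y') (by omega) (fun w hw hwy => ?_)
        (fun w hw hwx => ?_)⟩
      · have : w = x' := by
          have := h2 x y w x' hxy hw hx'
          grind
        subst this
        omega
      · have : w = y' := by
          have := h2 y x w y' hxy.symm hw hy'
          grind
        subst this
        omega
    by_cases he : t x x' = t y y'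
    · exact fin t ht he
    have hxx' : (del K x y).Adj x x' := ⟨hx', by tauto, fun h => hxy.ne h.1⟩
    have hyy' : (del K x y).Adj y y' := ⟨hy', fun h => hxy.ne h.1.symm, by tauto⟩
    by_cases hr : (del K x y).Reachable x y
    swap
    · refine fin _ (flip_proper ht (closed_reach (del K x y) x)) ?_
      have e1 : ¬ (del K x y).Reachable x y' := fun h => hr (h.trans hyy'.symm.reachable)
      have e2 := ht.2.1 y y'
      have e3 := ht.2.1 x x'
      simp only [Set.mem_ofPred_eq, SimpleGraph.Reachable.refl, true_or, if_true, hr, e1, or_self,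
        if_false]
      omega
    exfalso
    set P : Finset V := Finset.univ.filter (fun z => (del K x y).Reachable x z) with hP
    have hPm : ∀ z, z ∈ P ↔ (del K x y).Reachable x z := by simp [hP]
    have hPc : ∀ a b, a ∈ P → K.Adj a b → b ∈ P := by
      intro a b ha hab
      rw [hPm] at ha ⊢
      by_cases h : (del K x y).Adj a b
      · exact ha.trans h.reachable
      · rw [del_adj] at h
        have : (a = x ∧ b = y) ∨ (a = y ∧ b = x) := by tauto
        rcases this with ⟨rfl, rfl⟩ | ⟨rfl, rfl⟩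
        · exact hr
        · exact SimpleGraph.Reachable.refl _
    have hP2 : ∀ a ∈ P, TwoNb K a := by
      intro a ha
      rw [hPm] at ha
      have : ∃ b, K.Adj a b := by
        by_cases hax : a = x
        · exact ⟨y, hax ▸ hxy⟩
        · obtain ⟨p⟩ := ha.symm
          cases p with
          | nil => exact (hax rfl).elim
          | cons h _ => exact ⟨_, h.1⟩
      obtain ⟨b, hb⟩ := this
      obtain ⟨c, hc, hcb⟩ := hleaf a b hb
      exact ⟨b, c, hcb.symm, hb, hc⟩
    have ev1 : Even P.card := hev P hPc hP2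
    have hyP : y ∈ P := (hPm y).2 hr
    let R : SimpleGraph V :=
      { Adj := fun a b => (del K x y).Adj a b ∧ a ∈ P ∧ b ∈ P ∧ t a b = t x x'
        symm := ⟨fun a b h => ⟨h.1.symm, h.2.2.1, h.2.1, by rw [ht.1 b a]; exact h.2.2.2⟩⟩
        loopless := ⟨fun a h => (del K x y).loopless.1 a h.1⟩ }
    have ev2 : Even (P.erase y).card := by
      refine even_of_invol R _ ?_ ?_ ?_
      · intro a ha
        rw [Finset.mem_erase] at ha
        by_cases hax : a = x
        · subst hax
          exact ⟨x', hxx', ha.2, hPc _ _ ha.2 hx', rfl⟩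
        · obtain ⟨b, c, hbc, hb, hc⟩ := hP2 a ha.2
          have hb' : (del K x y).Adj a b := ⟨hb, fun h => hax h.1, fun h => ha.1 h.1⟩
          have hc' : (del K x y).Adj a c := ⟨hc, fun h => hax h.1, fun h => ha.1 h.1⟩
          have e1 := ht.2.2 a b c hb' hc' hbc
          have e2 := ht.2.1 a b
          have e3 := ht.2.1 a c
          have e4 := ht.2.1 x x'
          by_cases h : t a b = t x x'
          · exact ⟨b, hb', ha.2, hPc _ _ ha.2 hb, h⟩
          · exact ⟨c, hc', ha.2, hPc _ _ ha.2 hc, by omega⟩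
      · intro a b c hb hc
        by_contra hne
        exact ht.2.2 a b c hb.1 hc.1 hne (hb.2.2.2.trans hc.2.2.2.symm)
      · intro a b hab
        rw [Finset.mem_erase]
        refine ⟨?_, hab.2.1⟩
        rintro rfl
        have hb := hab.1
        have : b = y' := by
          have := h2 a x b y' hxy.symm hb.1 hy'
          rw [del_adj] at hb
          grind
        subst this
        exact he hab.2.2.2.symm
    rw [Finset.card_erase_of_mem hyP] at ev2
    have : 0 < P.card := Finset.card_pos.2 ⟨y, hyP⟩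
    obtain ⟨k, hk⟩ := ev1
    obtain ⟨l, hl⟩ := ev2
    omega

end Pool.Agent.MP_5d33c3_co.H12
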