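import Pool.Agent.MP_5d33c3_co.H12.Init

namespace Pool.Agent.MP_5d33c3_co.H12

open Classical

variable {V : Type}

theorem Proper2.mono {K K' : SimpleGraph V} {t : V → V → ℕ} (ht : Proper2 K t)
    (h : ∀ a b, K'.Adj a b → K.Adj a b) : Proper2 K' t :=
  ⟨ht.1, ht.2.1, fun a b c hb hc => ht.2.2 a b c (h _ _ hb) (h _ _ hc)⟩

theorem prep [Fintype V] {F : SimpleGraph V} (h2 : Deg2 F) {u v u1 u2 va vb : V}
    (h1 : F.Adj u u1) (h1' : F.Adj u u2) (h12 : u1 ≠ u2) (ha : F.Adj v va) (hb : F.Adj v vb)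
    (hab : va ≠ vb) (huv : u ≠ v) (hv1 : u1 ≠ v) :
    ∃ (W : Finset V) (v1 v2 : V) (t : V → V → ℕ), Closed F W ∧ u ∈ W ∧ v ∈ W ∧
      ((v1 = va ∧ v2 = vb) ∨ (v1 = vb ∧ v2 = va)) ∧
      Proper2 (del (del (res F W) u u1) v v1) t ∧ t u u2 = t v v2 := by
  obtain ⟨t, ht⟩ := twoCol_comp h2 h1
  have hu : u ∈ comp F u := (mem_comp F u u).2 (SimpleGraph.Reachable.refl u)
  by_cases hv : v ∈ comp F u
  · have ea : (del (res F (comp F u)) u u1).Adj v va :=
      ⟨⟨ha, hv, comp_closed F u _ _ hv ha⟩, fun h => huv h.1.symm, fun h => hv1 h.1.symm⟩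
    have eb : (del (res F (comp F u)) u u1).Adj v vb :=
      ⟨⟨hb, hv, comp_closed F u _ _ hv hb⟩, fun h => huv h.1.symm, fun h => hv1 h.1.symm⟩
    have e1 := ht.2.2 v va vb ea eb hab
    have e2 := ht.2.1 v va
    have e3 := ht.2.1 v vb
    have e4 := ht.2.1 u u2
    by_cases h : t u u2 = t v vb
    · exact ⟨_, va, vb, t, comp_closed F u, hu, hv, Or.inl ⟨rfl, rfl⟩,
        ht.mono fun a b h => h.1, h⟩
    · exact ⟨_, vb, va, t, comp_closed F u, hu, hv, Or.inr ⟨rfl, rfl⟩,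
        ht.mono fun a b h => h.1, by omega⟩
  · obtain ⟨t', ht', he⟩ : ∃ t', Proper2 (del (res F (comp F v)) v va) t' ∧ t u u2 = t' v vb := by
      obtain ⟨t', ht'⟩ := twoCol_comp h2 ha
      by_cases h : t u u2 = t' v vb
      · exact ⟨t', ht', h⟩
      · refine ⟨_, compl_proper ht', ?_⟩
        have e1 := ht.2.1 u u2
        have e2 := ht'.2.1 v vb
        show t u u2 = 1 - t' v vb
        omega
    have hvv : v ∈ comp F v := (mem_comp F v v).2 (SimpleGraph.Reachable.refl v)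
    have cu := comp_closed F u
    have cv := comp_closed F v
    refine ⟨comp F u ∪ comp F v, va, vb,
      fun a b => if a ∈ comp F u ∨ b ∈ comp F u then t a b else t' a b, ?_,
      Finset.mem_union_left _ hu, Finset.mem_union_right _ hvv, Or.inl ⟨rfl, rfl⟩,
      ⟨fun a b => ?_, fun a b => ?_, fun a b c hb' hc' hne => ?_⟩, ?_⟩
    · intro a b ha' hab'
      rw [Finset.mem_coe, Finset.mem_union] at ha' ⊢
      exact ha'.imp (fun h => cu _ _ h hab') fun h => cv _ _ h hab'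
    · simp only [or_comm (a := a ∈ comp F u), ht.1 a b, ht'.1 a b]
    · dsimp only
      split_ifs
      · exact ht.2.1 a b
      · exact ht'.2.1 a b
    · simp only [del_adj, res_adj, Finset.mem_coe, Finset.mem_union] at hb' hc'
      by_cases hau : a ∈ comp F u
      · simp only [hau, true_or, if_true]
        exact ht.2.2 a b c ⟨⟨hb'.1.1.1, hau, cu _ _ hau hb'.1.1.1⟩, hb'.1.2⟩
          ⟨⟨hc'.1.1.1, hau, cu _ _ hau hc'.1.1.1⟩, hc'.1.2⟩ hne
      · have hbu : b ∉ comp F u := fun h => hau (cu _ _ h hb'.1.1.1.symm)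
        have hcu : c ∉ comp F u := fun h => hau (cu _ _ h hc'.1.1.1.symm)
        have hav : a ∈ comp F v := hb'.1.1.2.1.resolve_left hau
        simp only [hau, hbu, hcu, or_self, if_false]
        exact ht'.2.2 a b c ⟨⟨hb'.1.1.1, hav, cv _ _ hav hb'.1.1.1⟩, hb'.2⟩
          ⟨⟨hc'.1.1.1, hav, cv _ _ hav hc'.1.1.1⟩, hc'.2⟩ hne
    · have hbu : vb ∉ comp F u := fun h => hv (cu _ _ h hb.symm)
      simp only [hu, hv, hbu, true_or, or_self, if_true, if_false]
      exact he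

theorem avoid_of_two (p q r : ℕ) (h : p ≠ q) : ∃ d, (d = p ∨ d = q) ∧ d ≠ r := by
  by_cases e : p = r
  · exact ⟨q, Or.inr rfl, by omega⟩
  · exact ⟨p, Or.inl rfl, e⟩

theorem rainbow [Fintype V] {G : SimpleGraph V} {m : V → V} (hm : MS G m) {u : V} (hu : m u ≠ u)
    {φ : V → ℕ} (f1 : ∀ z, φ (m z) = φ z) (f2 : ∀ z, 2 ≤ φ z ∧ φ z < 6)
    (f3 : ∀ a b, a ≠ u → a ≠ m u → b ≠ u → b ≠ m u → m a ≠ a → m b ≠ b → (FF G m).Adj a b →
        φ a ≠ φ b) {u1 u2 v1 v2 : V} {W : Finset V} {t : V → V → ℕ}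
    (a1 : (FF G m).Adj u u1) (a2 : (FF G m).Adj u u2) (b1 : (FF G m).Adj (m u) v1)
    (b2 : (FF G m).Adj (m u) v2) (n1 : φ u1 ≠ φ u2) (n2 : φ u1 ≠ φ v1) (n3 : φ u1 ≠ φ v2)
    (n4 : φ u2 ≠ φ v1) (n5 : φ u2 ≠ φ v2) (n6 : φ v1 ≠ φ v2)
    (hW : Closed (FF G m) W) (ht : Proper2 (del (del (res (FF G m) W) u u1) (m u) v1) t)
    (huW : u ∈ W) (hvW : m u ∈ W)
    (he : t u u2 = t (m u) v2) : ∃ c, PV G G c := by
  obtain ⟨p, hp⟩ := one_val (other_unique hm.deg a1.symm) φ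
  obtain ⟨q, hq⟩ := one_val (other_unique hm.deg b1.symm) φ
  obtain ⟨d1, d11, d12⟩ := avoid_of_two (φ v1) (φ v2) p n6
  obtain ⟨d2, d21, d22⟩ := avoid_of_two (φ u1) (φ u2) q n1
  obtain ⟨t1, t2, t3⟩ := ht
  have hγ : 1 - t u u2 < 2 := by omega
  have pv : PV G (KK G m Finset.univ) (base m (setc m φ u (1 - t u u2))) :=
    setc_pv hm f1 f2 f3 (by omega) (fun z _ _ => by have := f2 z; omega)
  have g1 := f2 u1
  have g2 := f2 u2
  have g3 := f2 v1
  have g4 := f2 v2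
  have k1 := FF_ne a1
  have k2 := FF_ne a2
  have k3 := FF_ne b1
  have k4 := FF_ne b2
  have k5 := hm.inv u
  have k6 : u1 ≠ v1 := fun h => n2 (by rw [h])
  have d12' : d1 ≠ d2 := by omega
  have ux : ∀ z, (FF G m).Adj u z → z = u1 ∨ z = u2 := by
    intro z hz
    have := hm.deg u u1 u2 z a1 a2 hz
    grind
  have vx : ∀ z, (FF G m).Adj (m u) z → z = v1 ∨ z = v2 := by
    intro z hz
    have := hm.deg (m u) v1 v2 z b1 b2 hz
    grind
  have hs : ∀ a b, (((a = m u ∧ b = v1) ∨ (a = v1 ∧ b = m u)) ∧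
      upd (upd t u u1 d1) (m u) v1 d2 a b = d2) ∨
      (((a = u ∧ b = u1) ∨ (a = u1 ∧ b = u)) ∧ upd (upd t u u1 d1) (m u) v1 d2 a b = d1) ∨
      (¬ (a = m u ∧ b = v1) ∧ ¬ (a = v1 ∧ b = m u) ∧ ¬ (a = u ∧ b = u1) ∧ ¬ (a = u1 ∧ b = u) ∧
        upd (upd t u u1 d1) (m u) v1 d2 a b = t a b) := by
    intro a b
    rcases upd_eq (upd t u u1 d1) (m u) v1 d2 a b with h | h
    · exact Or.inl h
    · rcases upd_eq t u u1 d1 a b with h' | h'
      · exact Or.inr (Or.inl ⟨h'.1, h.2.2.trans h'.2⟩)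
      · exact Or.inr (Or.inr ⟨h.1, h.2.1, h'.1, h'.2.1, h.2.2.trans h'.2.2⟩)
  have hd1 : 2 ≤ d1 ∧ d1 < 6 := by omega
  have hd2 : 2 ≤ d2 ∧ d2 < 6 := by omega
  have e3 := t2 u u2
  have sc : ∀ z d, 2 ≤ d → φ z ≠ d → setc m φ u (1 - t u u2) z ≠ d := by
    intro z d h1 h2
    rcases setc_eq m φ u (1 - t u u2) z with h | h <;> omega
  have ssymm := upd_symm (upd_symm t1 u u1 d1) (m u) v1 d2
  generalize upd (upd t u u1 d1) (m u) v1 d2 = s at hs ssymm
  obtain ⟨c, st, -⟩ := step (s := s) hm (closed_univ _) hW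
    (Finset.subset_univ _) pv
    (fun z _ hz _ _ => by
      rw [base_m]
      have := f2 z
      rcases setc_eq m φ u (1 - t u u2) z with ⟨rfl | rfl, h⟩ | h
      · exact (hz huW).elim
      · exact (hz hvW).elim
      · omega)
    (fun z a b hz => (hz (Finset.mem_univ _)).elim) ssymm
    (fun a b => by
      have := t2 a b
      rcases hs a b with h | h | h <;> omega)
    (fun a b y ha hb hy hne => by
      have e1 := t2 a b
      have e2 := t2 a y
      have e3 := t3 a b y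
      have e4 := hW _ _ ha hb
      have e5 := hW _ _ ha hy
      simp only [del_adj, res_adj] at e3
      have h := hs a b
      have h' := hs a y
      clear hs t1 t2 t3 f1 f2 f3 hp hq ux vx sc ssymm pv hW hm
      rcases h with h | h | h <;> rcases h' with h' | h' | h' <;> grind)
    (fun a b ha hb hma => by
      rw [base_m]
      have e1 := t2 a b
      have e2 := f2 a
      rcases hs a b with ⟨⟨rfl, rfl⟩ | ⟨rfl, rfl⟩, h⟩ | ⟨⟨rfl, rfl⟩ | ⟨rfl, rfl⟩, h⟩ | h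
      · rw [h]; simp only [setc, or_true, if_true]; omega
      · rw [h]; exact sc _ _ hd2.1 (by omega)
      · rw [h]; simp only [setc, true_or, if_true]; omega
      · rw [h]; exact sc _ _ hd1.1 (by omega)
      · rw [h.2.2.2.2]
        rcases setc_eq m φ u (1 - t u u2) a with ⟨rfl | rfl, h'⟩ | h'
        · rcases ux b hb with rfl | rfl
          · exact (h.2.2.1 ⟨rfl, rfl⟩).elim
          · omega
        · rcases vx b hb with rfl | rfl
          · exact (h.1 ⟨rfl, rfl⟩).elim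
          · omega
        · omega)
    (fun a b x ha hb h2 hx hxb hmx => by
      rw [base_m]
      have e1 := t2 a b
      rcases hs a b with ⟨⟨rfl, rfl⟩ | ⟨rfl, rfl⟩, h⟩ | ⟨⟨rfl, rfl⟩ | ⟨rfl, rfl⟩, h⟩ | h
      · rw [h]
        rcases vx x hx with rfl | rfl
        · exact (hxb rfl).elim
        · exact sc _ _ hd2.1 (by omega)
      · rw [h]
        exact sc _ _ hd2.1 (by have := hq x ⟨hx, hxb⟩; omega)
      · rw [h]
        rcases ux x hx with rfl | rfl
        · exact (hxb rfl).elim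
        · exact sc _ _ hd1.1 (by omega)
      · rw [h]
        exact sc _ _ hd1.1 (by have := hp x ⟨hx, hxb⟩; omega)
      · omega)
    (fun a b x y ha hb h2 hx hxb hxy hya => by
      have e1 := t2 a b
      have e2 := t2 x y
      have e3 := hx.ne
      have h := hs a b
      have h' := hs x y
      clear hs t1 t2 t3 f1 f2 f3 hp hq ux vx sc ssymm pv hW hm
      rcases h with h | h | h <;> rcases h' with h' | h' | h' <;> grind)
    (fun a b y ha hb h2 hma hy => by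
      have e1 := t2 a b
      have e2 := t2 (m a) y
      have e3 := FF_ne hb
      refine ⟨fun _ => ?_, fun h => (h (Finset.mem_univ _)).elim⟩
      have h := hs a b
      have h' := hs (m a) y
      clear hs t1 t2 t3 f1 f2 f3 hp hq ux vx sc ssymm pv hW hm
      rcases h with h | h | h <;> rcases h' with h' | h' | h' <;> grind)
  obtain ⟨c', st', -⟩ := extend hm _ c st
  exact ⟨c', st'.valid⟩

theorem init_free [Fintype V] {G : SimpleGraph V} {m : V → V} (hm : MS G m) {u : V}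
    (hcl : ∀ A : Finset V, Closed G A → u ∉ A → ∀ a ∈ A, ∀ b, ¬ G.Adj a b) :
    ∃ c, PV G G c := by
  obtain ⟨φ, f1, f2, f3⟩ := colourM hm u hcl
  by_cases hfree : ∃ γ, 2 ≤ γ ∧ γ < 6 ∧
      ∀ z, (FF G m).Adj u z ∨ (FF G m).Adj (m u) z → m z ≠ z → φ z ≠ γ
  · obtain ⟨γ, g1, g2, g3⟩ := hfree
    obtain ⟨c, st, -⟩ := extend hm Finset.univ _ ⟨closed_univ _, setc_pv hm f1 f2 f3 g2 g3,
      fun z _ _ _ => by
        rw [base_m]
        have := f2 z
        rcases setc_eq m φ u γ z with h | h <;> omega,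
      fun z a b hz => (hz (Finset.mem_univ _)).elim⟩
    exact ⟨c, st.valid⟩
  · push Not at hfree
    obtain ⟨z2, a2, -, c2⟩ := hfree 2 (by omega) (by omega)
    obtain ⟨z3, a3, -, c3⟩ := hfree 3 (by omega) (by omega)
    obtain ⟨z4, a4, -, c4⟩ := hfree 4 (by omega) (by omega)
    obtain ⟨z5, a5, -, c5⟩ := hfree 5 (by omega) (by omega)
    have du : ∀ a x y z, (FF G m).Adj a x → (FF G m).Adj a y → (FF G m).Adj a z →
        φ x = φ y ∨ φ x = φ z ∨ φ y = φ z := by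
      intro a x y z hx hy hz
      have := hm.deg a x y z hx hy hz
      grind
    have fin : ∀ u1 u2 va vb, (FF G m).Adj u u1 → (FF G m).Adj u u2 → (FF G m).Adj (m u) va →
        (FF G m).Adj (m u) vb → φ u1 ≠ φ u2 → φ u1 ≠ φ va → φ u1 ≠ φ vb → φ u2 ≠ φ va →
        φ u2 ≠ φ vb → φ va ≠ φ vb → ∃ c, PV G G c := by
      intro u1 u2 va vb a1 a2 b1 b2 n1 n2 n3 n4 n5 n6
      have hu : m u ≠ u := by
        intro h
        rw [h] at b1
        have := du u u1 u2 va a1 a2 b1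
        omega
      obtain ⟨W, v1, v2, t, hW, huW, hvW, hv, ht, he⟩ := prep hm.deg a1 a2
        (fun h => n1 (by rw [h])) b1 b2 (fun h => n6 (by rw [h])) hu.symm a1.2.1.symm
      rcases hv with ⟨rfl, rfl⟩ | ⟨rfl, rfl⟩
      · exact rainbow hm hu f1 f2 f3 a1 a2 b1 b2 n1 n2 n3 n4 n5 n6 hW ht huW hvW he
      · exact rainbow hm hu f1 f2 f3 a1 a2 b2 b1 n1 n3 n2 n5 n4 n6.symm hW ht huW hvW he
    rcases a2 with a2 | a2 <;> rcases a3 with a3 | a3 <;> rcases a4 with a4 | a4 <;>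
      rcases a5 with a5 | a5 <;>
      first
      | (have := du _ _ _ _ a2 a3 a4; omega)
      | (have := du _ _ _ _ a2 a3 a5; omega)
      | (have := du _ _ _ _ a2 a4 a5; omega)
      | (have := du _ _ _ _ a3 a4 a5; omega)
      | (refine fin _ _ _ _ a2 a3 a4 a5 ?_ ?_ ?_ ?_ ?_ ?_ <;> omega)
      | (refine fin _ _ _ _ a2 a4 a3 a5 ?_ ?_ ?_ ?_ ?_ ?_ <;> omega)
      | (refine fin _ _ _ _ a2 a5 a3 a4 ?_ ?_ ?_ ?_ ?_ ?_ <;> omega)
      | (refine fin _ _ _ _ a3 a4 a2 a5 ?_ ?_ ?_ ?_ ?_ ?_ <;> omega)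
      | (refine fin _ _ _ _ a3 a5 a2 a4 ?_ ?_ ?_ ?_ ?_ ?_ <;> omega)
      | (refine fin _ _ _ _ a4 a5 a2 a3 ?_ ?_ ?_ ?_ ?_ ?_ <;> omega)

end Pool.Agent.MP_5d33c3_co.H12
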