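import Pool.Agent.MP_5d33c3_co.H12.Window

namespace Pool.Agent.MP_5d33c3_co.H12

open Classical

variable {V : Type}

/-- `c` is a valid colouring of the edges of `K`, distances being measured in `G` -/
structure PV (G K : SimpleGraph V) (c : V → V → ℕ) : Prop where
  symm : ∀ a b, c a b = c b a
  lt : ∀ a b, c a b < 6
  v1 : ∀ a b y, K.Adj a b → K.Adj a y → b ≠ y → c a b ≠ c a y
  v2 : ∀ a b x y, K.Adj a b → G.Adj a x → K.Adj x y → b ≠ x → y ≠ a → 2 ≤ c a b → c a b ≠ c x y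

/-- the edges outside the matching -/
def FF (G : SimpleGraph V) (m : V → V) : SimpleGraph V where
  Adj a b := G.Adj a b ∧ m a ≠ b ∧ m b ≠ a
  symm := ⟨fun _ _ h => ⟨h.1.symm, h.2.2, h.2.1⟩⟩
  loopless := ⟨fun a h => G.loopless.1 a h.1⟩

structure MS (G : SimpleGraph V) (m : V → V) : Prop where
  inv : ∀ x, m (m x) = x
  adj : ∀ x, m x ≠ x → G.Adj x (m x)
  deg : Deg2 (FF G m)

theorem MS.cases {G : SimpleGraph V} {m : V → V} (hm : MS G m) {a b : V} (h : G.Adj a b) :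
    (FF G m).Adj a b ∨ (b = m a ∧ m a ≠ a) := by
  by_cases e : m a = b
  · exact Or.inr ⟨e.symm, fun e' => h.ne (e'.symm.trans e)⟩
  · exact Or.inl ⟨h, e, fun e' => e (by rw [← e', hm.inv])⟩

theorem FF_ne {G : SimpleGraph V} {m : V → V} {a b : V} (h : (FF G m).Adj a b) :
    a ≠ b ∧ m a ≠ b ∧ m b ≠ a := ⟨h.ne, h.2.1, h.2.2⟩

/-- the edges already coloured -/
def KK (G : SimpleGraph V) (m : V → V) (U : Finset V) : SimpleGraph V where
  Adj a b := G.Adj a b ∧ ¬ ((FF G m).Adj a b ∧ (a ∈ U ∨ b ∈ U))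
  symm := ⟨fun _ _ h => ⟨h.1.symm, fun h' => h.2 ⟨h'.1.symm, h'.2.symm⟩⟩⟩
  loopless := ⟨fun a h => G.loopless.1 a h.1⟩

theorem KK_m {G : SimpleGraph V} {m : V → V} (hm : MS G m) (U : Finset V) {a : V} (h : m a ≠ a) :
    (KK G m U).Adj a (m a) := ⟨hm.adj a h, fun h' => h'.1.2.1 rfl⟩

theorem KK_F {G : SimpleGraph V} {m : V → V} {U : Finset V} (hU : Closed (FF G m) U) {a b : V}
    (h : (FF G m).Adj a b) (ha : a ∉ U) : (KK G m U).Adj a b :=
  ⟨h.1, fun h' => h'.2.elim ha fun hb => ha (hU _ _ hb h.symm)⟩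

theorem KK_cases {G : SimpleGraph V} {m : V → V} (hm : MS G m) {U : Finset V} {a b : V}
    (h : (KK G m U).Adj a b) : ((FF G m).Adj a b ∧ a ∉ U) ∨ (b = m a ∧ m a ≠ a) := by
  rcases hm.cases h.1 with h' | h'
  · exact Or.inl ⟨h', fun ha => h.2 ⟨h', Or.inl ha⟩⟩
  · exact Or.inr h'

structure State (G : SimpleGraph V) (m : V → V) (U : Finset V) (c : V → V → ℕ) : Prop where
  closed : Closed (FF G m) U
  pv : PV G (KK G m U) c
  mty : ∀ z ∈ U, m z ≠ z → (∃ w, (FF G m).Adj z w) → 2 ≤ c z (m z)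
  one : ∀ z a b, z ∉ U → (FF G m).Adj z a → (FF G m).Adj z b → a ≠ b → c z a < 2 ∨ c z b < 2

theorem step {G : SimpleGraph V} {m : V → V} (hm : MS G m) {U W : Finset V} {c s : V → V → ℕ}
    (hU : Closed (FF G m) U) (hW : Closed (FF G m) W) (hWU : W ⊆ U)
    (pv : PV G (KK G m U) c)
    (mty : ∀ z ∈ U, z ∉ W → m z ≠ z → (∃ w, (FF G m).Adj z w) → 2 ≤ c z (m z))
    (one : ∀ z a b, z ∉ U → (FF G m).Adj z a → (FF G m).Adj z b → a ≠ b →
      c z a < 2 ∨ c z b < 2)
    (ssymm : ∀ a b, s a b = s b a) (slt : ∀ a b, s a b < 6)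
    (s1 : ∀ a b y, a ∈ W → (FF G m).Adj a b → (FF G m).Adj a y → b ≠ y →
      s a b ≠ s a y ∧ (s a b < 2 ∨ s a y < 2))
    (s2 : ∀ a b, a ∈ W → (FF G m).Adj a b → m a ≠ a → c a (m a) ≠ s a b)
    (s3 : ∀ a b x, a ∈ W → (FF G m).Adj a b → 2 ≤ s a b → (FF G m).Adj a x → x ≠ b → m x ≠ x →
      c x (m x) ≠ s a b)
    (s4 : ∀ a b x y, a ∈ W → (FF G m).Adj a b → 2 ≤ s a b → (FF G m).Adj a x → x ≠ b →
      (FF G m).Adj x y → y ≠ a → s x y ≠ s a b)
    (s5 : ∀ a b y, a ∈ W → (FF G m).Adj a b → 2 ≤ s a b → m a ≠ a → (FF G m).Adj (m a) y →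
      (m a ∈ W → s (m a) y ≠ s a b) ∧ (m a ∉ U → c (m a) y ≠ s a b)) :
    ∃ c', State G m (U \ W) c' ∧ ∀ z, c' z (m z) = c z (m z) := by
  let c' : V → V → ℕ := fun a b => if (FF G m).Adj a b ∧ a ∈ W then s a b else c a b
  have hnew : ∀ a b, (FF G m).Adj a b → a ∈ W → c' a b = s a b := by
    intro a b h1 h2
    simp only [c', h1, h2, and_self, if_true]
  have hold : ∀ a b, (KK G m U).Adj a b → c' a b = c a b := by
    intro a b h
    have : ¬ ((FF G m).Adj a b ∧ a ∈ W) := fun h' => h.2 ⟨h'.1, Or.inl (hWU h'.2)⟩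
    simp only [c', this, if_false]
  have hm' : ∀ z, c' z (m z) = c z (m z) := by
    intro z
    have : ¬ ((FF G m).Adj z (m z) ∧ z ∈ W) := fun h' => h'.1.2.1 rfl
    simp only [c', this, if_false]
  have hcl : Closed (FF G m) ((U \ W : Finset V) : Set V) := by
    intro a b ha hab
    simp only [Finset.coe_sdiff, Set.mem_sdiff, Finset.mem_coe] at ha ⊢
    exact ⟨hU _ _ ha.1 hab, fun hb => ha.2 (hW _ _ hb hab.symm)⟩
  have hsplit : ∀ a b, (KK G m (U \ W)).Adj a b →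
      (KK G m U).Adj a b ∨ ((FF G m).Adj a b ∧ a ∈ W) := by
    intro a b h
    rcases KK_cases hm h with ⟨h1, h2⟩ | ⟨rfl, h2⟩
    · by_cases ha : a ∈ W
      · exact Or.inr ⟨h1, ha⟩
      · exact Or.inl (KK_F hU h1 fun hu => h2 (Finset.mem_sdiff.2 ⟨hu, ha⟩))
    · exact Or.inl (KK_m hm U h2)
  -- a new edge of an induced colour against an old edge
  have hno : ∀ a b x y, (FF G m).Adj a b → a ∈ W → G.Adj a x → (KK G m U).Adj x y → b ≠ x →
      y ≠ a → 2 ≤ s a b → s a b ≠ c x y := by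
    intro a b x y hab ha hax hxy hbx hya h2
    rcases hm.cases hax with h | ⟨rfl, h⟩
    · have hx : x ∈ U := hWU (hW _ _ ha h)
      rcases KK_cases hm hxy with ⟨_, h'⟩ | ⟨rfl, h'⟩
      · exact (h' hx).elim
      · exact (s3 a b x ha hab h2 h hbx.symm h').symm
    · rcases KK_cases hm hxy with ⟨h1, h'⟩ | ⟨rfl, h'⟩
      · exact ((s5 a b y ha hab h2 h h1).2 h').symm
      · exact (hya (hm.inv a)).elim
  refine ⟨c', ⟨hcl, ⟨?_, ?_, ?_, ?_⟩, ?_, ?_⟩, hm'⟩
  · intro a b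
    have : ((FF G m).Adj a b ∧ a ∈ W) ↔ ((FF G m).Adj b a ∧ b ∈ W) :=
      ⟨fun h => ⟨h.1.symm, hW _ _ h.2 h.1⟩, fun h => ⟨h.1.symm, hW _ _ h.2 h.1⟩⟩
    simp only [c', this, ssymm a b, pv.symm a b]
  · intro a b
    simp only [c']
    split_ifs
    · exact slt a b
    · exact pv.lt a b
  · intro a b y hb hy hne
    rcases hsplit _ _ hb with hb | ⟨hb, ha⟩ <;> rcases hsplit _ _ hy with hy | ⟨hy, ha'⟩
    · rw [hold _ _ hb, hold _ _ hy]
      exact pv.v1 a b y hb hy hne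
    · rw [hold _ _ hb, hnew _ _ hy ha']
      rcases KK_cases hm hb with ⟨_, h'⟩ | ⟨rfl, h'⟩
      · exact (h' (hWU ha')).elim
      · exact s2 a y ha' hy h'
    · rw [hold _ _ hy, hnew _ _ hb ha]
      rcases KK_cases hm hy with ⟨_, h'⟩ | ⟨rfl, h'⟩
      · exact (h' (hWU ha)).elim
      · exact (s2 a b ha hb h').symm
    · rw [hnew _ _ hb ha, hnew _ _ hy ha]
      exact (s1 a b y ha hb hy hne).1
  · intro a b x y hab hax hxy hbx hya
    rcases hsplit _ _ hab with hab | ⟨hab, ha⟩ <;> rcases hsplit _ _ hxy with hxy | ⟨hxy, hx⟩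
    · rw [hold _ _ hab, hold _ _ hxy]
      exact pv.v2 a b x y hab hax hxy hbx hya
    · rw [hold _ _ hab, hnew _ _ hxy hx]
      intro h2 he
      exact hno x y a b hxy hx hax.symm hab hya hbx (he ▸ h2) he.symm
    · rw [hold _ _ hxy, hnew _ _ hab ha]
      exact hno a b x y hab ha hax hxy hbx hya
    · rw [hnew _ _ hxy hx, hnew _ _ hab ha]
      intro h2
      rcases hm.cases hax with h | ⟨rfl, h⟩
      · exact (s4 a b x y ha hab h2 h hbx.symm hxy hya).symm
      · exact ((s5 a b y ha hab h2 h hxy).1 hx).symm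
  · intro z hz h1 h2
    rw [Finset.mem_sdiff] at hz
    rw [hm']
    exact mty z hz.1 hz.2 h1 h2
  · intro z a b hz ha hb hab
    by_cases hzW : z ∈ W
    · rw [hnew _ _ ha hzW, hnew _ _ hb hzW]
      exact (s1 z a b hzW ha hb hab).2
    · have hzU : z ∉ U := fun h => hz (Finset.mem_sdiff.2 ⟨h, hzW⟩)
      rw [hold _ _ (KK_F hU ha hzU), hold _ _ (KK_F hU hb hzU)]
      exact one z a b hzU ha hb hab

theorem upd_eq (c : V → V → ℕ) (x y : V) (d : ℕ) (a b : V) :
    (((a = x ∧ b = y) ∨ (a = y ∧ b = x)) ∧ upd c x y d a b = d) ∨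
      (¬ (a = x ∧ b = y) ∧ ¬ (a = y ∧ b = x) ∧ upd c x y d a b = c a b) := by
  unfold upd
  split_ifs with h
  · exact Or.inl ⟨h, rfl⟩
  · exact Or.inr ⟨fun h' => h (Or.inl h'), fun h' => h (Or.inr h'), rfl⟩

/-- recolouring one edge with a matching colour -/
theorem recolour {G K : SimpleGraph V} {c : V → V → ℕ} (pv : PV G K c) {x y : V} (hxy : x ≠ y)
    {τ : ℕ} (hτ : τ < 2) (hx : ∀ z, K.Adj x z → z ≠ y → c x z ≠ τ)
    (hy : ∀ z, K.Adj y z → z ≠ x → c y z ≠ τ) : PV G K (upd c x y τ) := by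
  refine ⟨upd_symm pv.symm x y τ, fun a b => ?_, fun a b z hb hz hne => ?_,
    fun a b u v hab hau huv hbu hva => ?_⟩
  · have := pv.lt a b
    rcases upd_eq c x y τ a b with h | h <;> omega
  · have := pv.v1 a b z hb hz hne
    rcases upd_eq c x y τ a b with h | h <;> rcases upd_eq c x y τ a z with h' | h' <;> grind
  · have := pv.v2 a b u v hab hau huv hbu hva
    rcases upd_eq c x y τ a b with h | h <;> rcases upd_eq c x y τ u v with h' | h' <;> omega

/-- one edge of the closed set `W` gets an induced colour -/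
theorem step_one {G : SimpleGraph V} {m : V → V} (hm : MS G m) {U W : Finset V}
    {c t : V → V → ℕ}
    (hU : Closed (FF G m) U) (hW : Closed (FF G m) W) (hWU : W ⊆ U)
    (pv : PV G (KK G m U) c) {x y : V} (hx : x ∈ W) (hxy : (FF G m).Adj x y)
    (mty : ∀ z ∈ U, z ≠ x → m z ≠ z → (∃ w, (FF G m).Adj z w) → 2 ≤ c z (m z))
    (one : ∀ z a b, z ∉ U → (FF G m).Adj z a → (FF G m).Adj z b → a ≠ b →
      c z a < 2 ∨ c z b < 2)
    (ht : Proper2 (del (res (FF G m) W) x y) t) {d : ℕ} (hd2 : 2 ≤ d) (hd6 : d < 6)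
    (cx : m x ≠ x → c x (m x) ≠ d ∧ ∀ x', (FF G m).Adj x x' → x' ≠ y → c x (m x) ≠ t x x')
    (cy : m y ≠ y → c y (m y) ≠ d)
    (cx' : ∀ x', (FF G m).Adj x x' → x' ≠ y → m x' ≠ x' → c x' (m x') ≠ d)
    (cy' : ∀ y', (FF G m).Adj y y' → y' ≠ x → m y' ≠ y' → c y' (m y') ≠ d)
    (cx2 : ∀ w, m x ∉ U → (FF G m).Adj (m x) w → c (m x) w ≠ d)
    (cy2 : ∀ w, m y ∉ U → (FF G m).Adj (m y) w → c (m y) w ≠ d) :
    ∃ c', State G m (U \ W) c' ∧ ∀ z, c' z (m z) = c z (m z) := by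
  obtain ⟨t1, t2, t3⟩ := ht
  have hne := FF_ne hxy
  refine step (s := upd t x y d) hm hU hW hWU pv
    (fun z hz hzW => mty z hz fun h => hzW (h ▸ hx)) one (upd_symm t1 x y d) ?_ ?_ ?_ ?_ ?_ ?_
  · intro a b
    have := t2 a b
    rcases upd_eq t x y d a b with h | h <;> omega
  · intro a b z ha hb hz hbz
    have e1 := t2 a b
    have e2 := t2 a z
    have e3 := t3 a b z
    have e4 := hW _ _ ha hb
    have e5 := hW _ _ ha hz
    simp only [del_adj, res_adj] at e3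
    rcases upd_eq t x y d a b with h | h <;> rcases upd_eq t x y d a z with h' | h' <;> grind
  · intro a b ha hb hma
    have e1 := t2 a b
    have e2 := fun h => mty a (hWU ha) h hma ⟨b, hb⟩
    rcases upd_eq t x y d a b with h | h <;> grind
  · intro a b z ha hb h2 hz hzb hmz
    have e1 := t2 a b
    rcases upd_eq t x y d a b with h | h <;> grind
  · intro a b u v ha hb h2 hu hub huv hva
    have e1 := t2 a b
    have e2 := t2 u v
    have e3 := hu.ne
    rcases upd_eq t x y d a b with h | h <;> rcases upd_eq t x y d u v with h' | h' <;> grind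
  · intro a b v ha hb h2 hma hv
    have e1 := t2 a b
    have e2 := t2 (m a) v
    rcases upd_eq t x y d a b with h | h <;> rcases upd_eq t x y d (m a) v with h' | h' <;> grind

theorem compl_proper {K : SimpleGraph V} {t : V → V → ℕ} (ht : Proper2 K t) :
    Proper2 K (fun a b => 1 - t a b) := by
  obtain ⟨h1, h2, h3⟩ := ht
  refine ⟨fun a b => by dsimp only; rw [h1 a b], fun a b => by dsimp only; omega,
    fun a b c hb hc hne => ?_⟩
  have e1 := h3 a b c hb hc hne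
  have e2 := h2 a b
  have e3 := h2 a c
  dsimp only
  omega

/-- the step on an odd cycle, once the window is chosen -/
theorem step_odd {G : SimpleGraph V} {m : V → V} (hm : MS G m) {U W : Finset V}
    {c t : V → V → ℕ} (st : State G m U c) (hW : Closed (FF G m) W) (hWU : W ⊆ U)
    {x y x' y' : V} (hx : x ∈ W) (hxy : (FF G m).Adj x y)
    (hxx' : (FF G m).Adj x x') (hx'y : x' ≠ y) (hyy' : (FF G m).Adj y y') (hy'x : y' ≠ x)
    (ht : Proper2 (del (res (FF G m) W) x y) t) {d : ℕ} (hd2 : 2 ≤ d) (hd6 : d < 6)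
    (cx : (m x ≠ x → c x (m x) ≠ d) ∨
      (m x ≠ x ∧ m x ∉ U ∧ ∃ w, (FF G m).Adj (m x) w ∧ 2 ≤ c (m x) w))
    (cy : m y ≠ y → c y (m y) ≠ d)
    (cx' : m x' ≠ x' → c x' (m x') ≠ d) (cy' : m y' ≠ y' → c y' (m y') ≠ d)
    (cx2 : ∀ w, m x ∉ U → (FF G m).Adj (m x) w → c (m x) w ≠ d)
    (cy2 : ∀ w, m y ∉ U → (FF G m).Adj (m y) w → c (m y) w ≠ d) :
    ∃ c', State G m (U \ W) c' ∧ ∀ z, (∀ w, ¬ (FF G m).Adj z w) → c' z (m z) = c z (m z) := by
  have ux : ∀ z, (FF G m).Adj x z → z ≠ y → z = x' := by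
    intro z hz hzy
    have := hm.deg x y z x' hxy hz hxx'
    grind
  have uy : ∀ z, (FF G m).Adj y z → z ≠ x → z = y' := by
    intro z hz hzy
    have := hm.deg y x z y' hxy.symm hz hyy'
    grind
  rcases cx with cx | ⟨hmx, hmU, w, hw, hw2⟩
  · obtain ⟨c', h1, h2⟩ := step_one hm st.closed hW hWU st.pv hx hxy
      (fun z hz _ => st.mty z hz) st.one ht hd2 hd6
      (fun h => ⟨cx h, fun z _ _ => by
        have e1 := st.mty x (hWU hx) h ⟨y, hxy⟩
        have e2 := ht.2.1 x z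
        omega⟩) cy
      (fun z hz hzy => by rw [ux z hz hzy]; exact cx')
      (fun z hz hzy => by rw [uy z hz hzy]; exact cy') cx2 cy2
    exact ⟨c', h1, fun z _ => h2 z⟩
  · obtain ⟨τ, hτ, hτ'⟩ : ∃ τ, τ < 2 ∧ ∀ z, (FF G m).Adj (m x) z → c (m x) z ≠ τ := by
      by_cases h : ∃ z, (FF G m).Adj (m x) z ∧ z ≠ w
      · obtain ⟨z, hz, hzw⟩ := h
        refine ⟨1 - c (m x) z, by omega, fun z' hz' => ?_⟩
        have e1 := st.one (m x) z w hmU hz hw hzw
        have e2 := hm.deg (m x) z w z' hz hw hz'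
        rcases e2 with e2 | e2 | e2
        · exact (hzw e2).elim
        · subst e2
          omega
        · subst e2
          omega
      · refine ⟨0, by omega, fun z' hz' => ?_⟩
        have : z' = w := by
          by_contra hne
          exact h ⟨z', hz', hne⟩
        subst this
        omega
    obtain ⟨t', ht', htx⟩ : ∃ t', Proper2 (del (res (FF G m) W) x y) t' ∧ t' x x' ≠ τ := by
      by_cases h : t x x' = τ
      · refine ⟨_, compl_proper ht, ?_⟩
        show 1 - t x x' ≠ τ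
        omega
      · exact ⟨t, ht, h⟩
    have pv1 : PV G (KK G m U) (upd c x (m x) τ) := by
      refine recolour st.pv hmx.symm hτ (fun z hz hne => ?_) (fun z hz hne => ?_)
      · rcases KK_cases hm hz with ⟨_, h⟩ | ⟨h, _⟩
        · exact (h (hWU hx)).elim
        · exact (hne h).elim
      · rcases KK_cases hm hz with ⟨h, _⟩ | ⟨h, _⟩
        · exact hτ' z h
        · exact (hne (h.trans (hm.inv x))).elim
    have eM : ∀ z, z ≠ x → z ≠ m x → upd c x (m x) τ z (m z) = c z (m z) := by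
      intro z h1 h2
      rcases upd_eq c x (m x) τ z (m z) with h | h
      · grind
      · exact h.2.2
    have eF : ∀ a b, (FF G m).Adj a b → upd c x (m x) τ a b = c a b := by
      intro a b hab
      have := FF_ne hab
      rcases upd_eq c x (m x) τ a b with h | h
      · grind
      · exact h.2.2
    have eX : upd c x (m x) τ x (m x) = τ := by simp [upd]
    have inU : ∀ z ∈ U, z ≠ m x := fun z hz h => hmU (h ▸ hz)
    have hyW : y ∈ W := hW _ _ hx hxy
    have hx'W : x' ∈ W := hW _ _ hx hxx'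
    have hy'W : y' ∈ W := hW _ _ hyW hyy'
    obtain ⟨c', h1, h2⟩ := step_one hm st.closed hW hWU pv1 hx hxy
      (fun z hz hzx h1 h2 => by
        rw [eM z hzx (inU z hz)]
        exact st.mty z hz h1 h2)
      (fun z a b hz ha hb hab => by
        rw [eF _ _ ha, eF _ _ hb]
        exact st.one z a b hz ha hb hab) ht' hd2 hd6
      (fun _ => ⟨by omega, fun z hz hzy => by rw [ux z hz hzy, eX]; exact htx.symm⟩)
      (fun h => by
        rw [eM y hxy.ne.symm (inU y (hWU hyW))]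
        exact cy h)
      (fun z hz hzy => by
        rw [ux z hz hzy, eM x' hxx'.ne.symm (inU x' (hWU hx'W))]
        exact cx')
      (fun z hz hzy => by
        rw [uy z hz hzy, eM y' hy'x (inU y' (hWU hy'W))]
        exact cy')
      (fun z h hz => by
        rw [eF _ _ hz]
        exact cx2 z h hz)
      (fun z h hz => by
        rw [eF _ _ hz]
        exact cy2 z h hz)
    refine ⟨c', h1, fun z hz => ?_⟩
    rw [h2 z, eM z (fun h => hz y (h ▸ hxy)) (fun h => hz w (h ▸ hw))]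

theorem twoCol_del [Fintype V] {F : SimpleGraph V} (h2 : Deg2 F) {W : Finset V} (hW : Closed F W)
    {x y : V} (hx : x ∈ W) (hxy : F.Adj x y)
    (hmin : ∀ Z : Finset V, Z ⊆ W → x ∉ Z → Closed F Z → (∀ a ∈ Z, TwoNb F a) → Even Z.card) :
    ∃ t, Proper2 (del (res F W) x y) t := by
  refine twoCol _ (fun a b c d hb hc hd => h2 a b c d hb.1.1 hc.1.1 hd.1.1) fun Z hZ hZ2 => ?_
  have hZW : Z ⊆ W := by
    intro a ha
    obtain ⟨b, c, _, hb, _⟩ := hZ2 a ha
    exact hb.1.2.1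
  have hne : ∀ a ∈ Z, a ≠ x ∧ a ≠ y := by
    intro a ha
    obtain ⟨b, c, hbc, hb, hc⟩ := hZ2 a ha
    rw [del_adj, res_adj] at hb hc
    constructor
    · rintro rfl
      have := h2 a b c y hb.1.1 hc.1.1 hxy
      grind
    · rintro rfl
      have := h2 a b c x hb.1.1 hc.1.1 hxy.symm
      grind
  refine hmin Z hZW (fun h => (hne x h).1 rfl) (fun a b ha hab => ?_) fun a ha => ?_
  · exact hZ a b ha ⟨⟨hab, hZW ha, hW _ _ (hZW ha) hab⟩, fun h => (hne a ha).1 h.1,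
      fun h => (hne a ha).2 h.1⟩
  · obtain ⟨b, c, hbc, hb, hc⟩ := hZ2 a ha
    exact ⟨b, c, hbc, hb.1.1, hc.1.1⟩

theorem extend [Fintype V] {G : SimpleGraph V} {m : V → V} (hm : MS G m) (U : Finset V) :
    ∀ c, State G m U c →
      ∃ c', State G m ∅ c' ∧ ∀ z, (∀ w, ¬ (FF G m).Adj z w) → c' z (m z) = c z (m z) := by
  induction U using Finset.strongInduction with
  | H U ih =>
  intro c st
  by_cases hodd : ∃ W : Finset V, W ⊆ U ∧ Closed (FF G m) W ∧ (∀ a ∈ W, TwoNb (FF G m) a) ∧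
      ¬ Even W.card
  · obtain ⟨W, ⟨hWU, hW, hW2, hWo⟩, hmin⟩ := exists_minimal_of_wellFoundedLT _ hodd
    let φ : V → ℕ := fun z => if m z ≠ z then c z (m z) else 0
    let θ : V → ℕ := fun z =>
      if h : m z ≠ z ∧ m z ∉ U ∧ ∃ w, (FF G m).Adj (m z) w ∧ 2 ≤ c (m z) w then
        c (m z) h.2.2.choose else φ z
    obtain ⟨x, y, x', y', d, hx, hxy, hxx', hx'y, hyy', hy'x, hd2, hd6, d1, d2, d3, d4⟩ :=
      window (FF G m) hm.deg W hW hW2 hWo θ φ
    have hφ : ∀ z, d ≠ φ z → m z ≠ z → c z (m z) ≠ d := by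
      intro z h1 h2 h3
      apply h1
      simp only [φ, h2, ne_eq, not_false_eq_true, if_true, h3]
    have hθ1 : ∀ z ∈ W, d ≠ θ z → ∀ w, m z ∉ U → (FF G m).Adj (m z) w → c (m z) w ≠ d := by
      intro z hz h1 w h2 h3 h4
      have hmz : m z ≠ z := fun h => h2 (by rw [h]; exact hWU hz)
      have h : m z ≠ z ∧ m z ∉ U ∧ ∃ w, (FF G m).Adj (m z) w ∧ 2 ≤ c (m z) w :=
        ⟨hmz, h2, w, h3, by omega⟩
      apply h1
      simp only [θ, dif_pos h]
      obtain ⟨e1, e2⟩ := h.2.2.choose_spec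
      by_cases e : h.2.2.choose = w
      · rw [e, h4]
      · have := st.one (m z) _ w h2 e1 h3 e
        omega
    have hθ2 : ∀ z, d ≠ θ z → (m z ≠ z → c z (m z) ≠ d) ∨
        (m z ≠ z ∧ m z ∉ U ∧ ∃ w, (FF G m).Adj (m z) w ∧ 2 ≤ c (m z) w) := by
      intro z h1
      by_cases h : m z ≠ z ∧ m z ∉ U ∧ ∃ w, (FF G m).Adj (m z) w ∧ 2 ≤ c (m z) w
      · exact Or.inr h
      · left
        apply hφ
        simpa only [θ, dif_neg h] using h1
    have hyW : y ∈ W := hW _ _ hx hxy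
    have hmin' : ∀ v ∈ W, ∀ Z : Finset V, Z ⊆ W → v ∉ Z → Closed (FF G m) Z →
        (∀ a ∈ Z, TwoNb (FF G m) a) → Even Z.card := by
      intro v hv Z hZW hvZ hZ hZ2
      by_contra hZo
      exact hvZ (hmin ⟨hZW.trans hWU, hZ, hZ2, hZo⟩ hZW hv)
    have main : ∃ c', State G m (U \ W) c' ∧
        ∀ z, (∀ w, ¬ (FF G m).Adj z w) → c' z (m z) = c z (m z) := by
      by_cases cy : m y ≠ y → c y (m y) ≠ d
      · obtain ⟨t, ht⟩ := twoCol_del hm.deg hW hx hxy (hmin' x hx)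
        exact step_odd hm st hW hWU hx hxy hxx' hx'y hyy' hy'x ht hd2 hd6 (hθ2 x d2) cy
          (hφ x' d1) (hφ y' d4) (hθ1 x hx d2) (hθ1 y hyW d3)
      · obtain ⟨t, ht⟩ := twoCol_del hm.deg hW hyW hxy.symm (hmin' y hyW)
        push Not at cy
        have cx : m x ≠ x → c x (m x) ≠ d := by
          intro h
          rw [← cy.2]
          exact st.pv.v2 x (m x) y (m y) (KK_m hm U h) hxy.1 (KK_m hm U cy.1) hxy.2.1 hxy.2.2
            (st.mty x (hWU hx) h ⟨y, hxy⟩)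
        exact step_odd hm st hW hWU hyW hxy.symm hyy' hy'x hxx' hx'y ht hd2 hd6 (hθ2 y d3) cx
          (hφ y' d4) (hφ x' d1) (hθ1 y hyW d3) (hθ1 x hx d2)
    obtain ⟨c1, st1, e1⟩ := main
    obtain ⟨c2, st2, e2⟩ := ih (U \ W) (Finset.sdiff_ssubset hWU ⟨x, hx⟩) c1 st1
    exact ⟨c2, st2, fun z hz => (e2 z hz).trans (e1 z hz)⟩
  · obtain ⟨t, t1, t2, t3⟩ := twoCol (res (FF G m) U)
      (fun a b c d hb hc hd => hm.deg a b c d hb.1 hc.1 hd.1) (fun Z hZ hZ2 => by
        by_contra hZo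
        have hZU : Z ⊆ U := by
          intro a ha
          obtain ⟨b, c, _, hb, _⟩ := hZ2 a ha
          exact hb.2.1
        refine hodd ⟨Z, hZU, fun a b ha hab => ?_, fun a ha => ?_, hZo⟩
        · exact hZ a b ha ⟨hab, hZU ha, st.closed _ _ (hZU ha) hab⟩
        · obtain ⟨b, c, hbc, hb, hc⟩ := hZ2 a ha
          exact ⟨b, c, hbc, hb.1, hc.1⟩)
    obtain ⟨c', st', e⟩ := step (s := t) hm st.closed st.closed (Finset.Subset.refl U) st.pv
      (fun z hz hz' => (hz' hz).elim) st.one t1 (fun a b => by have := t2 a b; omega)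
      (fun a b y ha hb hy hne => ⟨t3 a b y ⟨hb, ha, st.closed _ _ ha hb⟩
        ⟨hy, ha, st.closed _ _ ha hy⟩ hne, Or.inl (t2 a b)⟩)
      (fun a b ha hb h => by
        have e1 := st.mty a ha h ⟨b, hb⟩
        have e2 := t2 a b
        omega)
      (fun a b x _ _ h => by have := t2 a b; omega)
      (fun a b x y _ _ h => by have := t2 a b; omega)
      (fun a b y _ _ h => by have := t2 a b; omega)
    rw [Finset.sdiff_self] at st'
    exact ⟨c', st', fun z _ => e z⟩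

theorem State.valid {G : SimpleGraph V} {m : V → V} {c : V → V → ℕ} (st : State G m ∅ c) :
    PV G G c := by
  have : ∀ a b, G.Adj a b → (KK G m ∅).Adj a b := fun a b h => ⟨h, fun h' => by simpa using h'.2⟩
  exact ⟨st.pv.symm, st.pv.lt, fun a b y hb hy => st.pv.v1 a b y (this _ _ hb) (this _ _ hy),
    fun a b x y hab hax hxy => st.pv.v2 a b x y (this _ _ hab) hax (this _ _ hxy)⟩

end Pool.Agent.MP_5d33c3_co.H12
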