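import Pool.Agent.MP_5d33c3_co.H12.Extend

namespace Pool.Agent.MP_5d33c3_co.H12

open Classical

variable {V : Type}

theorem avoid3 (p q r : ℕ) : ∃ γ, 2 ≤ γ ∧ γ < 6 ∧ γ ≠ p ∧ γ ≠ q ∧ γ ≠ r := by
  by_contra h
  push Not at h
  have a2 := h 2 (by omega) (by omega)
  have a3 := h 3 (by omega) (by omega)
  have a4 := h 4 (by omega) (by omega)
  have a5 := h 5 (by omega) (by omega)
  omega

theorem one_val {P : V → Prop} (h : ∀ b c, P b → P c → b = c) (f : V → ℕ) :
    ∃ q, ∀ b, P b → f b = q := by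
  by_cases hb : ∃ b, P b
  · obtain ⟨b, hb⟩ := hb
    exact ⟨f b, fun c hc => by rw [h b c hb hc]⟩
  · exact ⟨0, fun b h' => (hb ⟨b, h'⟩).elim⟩

theorem two_val {P : V → Prop} (h : ∀ b c d, P b → P c → P d → b = c ∨ b = d ∨ c = d)
    (f : V → ℕ) : ∃ q r, ∀ b, P b → f b = q ∨ f b = r := by
  by_cases hb : ∃ b, P b
  · obtain ⟨b, hb⟩ := hb
    obtain ⟨r, hr⟩ := one_val (P := fun c => P c ∧ c ≠ b) (fun c d hc hd => by
      have := h b c d hb hc.1 hd.1
      grind) f
    refine ⟨f b, r, fun c hc => ?_⟩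
    by_cases e : c = b
    · exact Or.inl (by rw [e])
    · exact Or.inr (hr c ⟨hc, e⟩)
  · exact ⟨0, 0, fun b h' => (hb ⟨b, h'⟩).elim⟩

theorem other_unique {F : SimpleGraph V} (h2 : Deg2 F) {a y : V} (hy : F.Adj a y) :
    ∀ b c, (F.Adj a b ∧ b ≠ y) → (F.Adj a c ∧ c ≠ y) → b = c := by
  intro b c hb hc
  have := h2 a y b c hy hb.1 hc.1
  grind

theorem colourA [Fintype V] {G : SimpleGraph V} {m : V → V} (hm : MS G m) (u : V)
    (hcl : ∀ A : Finset V, Closed G A → u ∉ A → ∀ a ∈ A, ∀ b, ¬ G.Adj a b) (A : Finset V) :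
    (∀ a ∈ A, m a ∈ A ∧ m a ≠ a ∧ a ≠ u) →
    ∃ φ : V → ℕ, (∀ z, φ (m z) = φ z) ∧ (∀ z, 2 ≤ φ z ∧ φ z < 6) ∧
      ∀ a ∈ A, ∀ b ∈ A, (FF G m).Adj a b → φ a ≠ φ b := by
  induction A using Finset.strongInduction with
  | H A ih =>
  intro hA
  rcases A.eq_empty_or_nonempty with rfl | ⟨a0, ha0⟩
  · exact ⟨fun _ => 2, fun _ => rfl, fun _ => by simp, by simp⟩
  by_cases hall : ∀ a ∈ A, ∃ b c, b ≠ c ∧ (FF G m).Adj a b ∧ (FF G m).Adj a c ∧ b ∈ A ∧ c ∈ A
  · exfalso
    refine hcl A (fun a b ha hab => ?_) (fun h => (hA u h).2.2 rfl) a0 ha0 (m a0)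
      (hm.adj a0 (hA a0 ha0).2.1)
    rcases hm.cases hab with h | ⟨rfl, _⟩
    · obtain ⟨p, q, hpq, hp, hq, hpA, hqA⟩ := hall a ha
      rcases hm.deg a p q b hp hq h with e | e | e
      · exact (hpq e).elim
      · exact e ▸ hpA
      · exact e ▸ hqA
    · exact (hA a ha).1
  · push Not at hall
    obtain ⟨x, hx, hx1⟩ := hall
    obtain ⟨φ, f1, f2, f3⟩ := ih ((A.erase x).erase (m x))
      (Finset.ssubset_of_subset_of_ssubset (Finset.erase_subset _ _) (Finset.erase_ssubset hx))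
      (fun a ha => by
        simp only [Finset.mem_erase] at ha ⊢
        refine ⟨⟨fun h => ha.2.1 ?_, fun h => ha.1 ?_, (hA a ha.2.2).1⟩, (hA a ha.2.2).2⟩
        · rw [← hm.inv a, h, hm.inv]
        · rw [← h, hm.inv])
    obtain ⟨p, hp⟩ := one_val (P := fun b => (FF G m).Adj x b ∧ b ∈ A) (fun b c hb hc => by
      by_contra hne
      exact hx1 b c hne hb.1 hc.1 hb.2 hc.2) φ
    obtain ⟨q, r, hq⟩ := two_val (P := fun b => (FF G m).Adj (m x) b) (hm.deg (m x)) φ
    obtain ⟨γ, g1, g2, g3, g4, g5⟩ := avoid3 p q r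
    refine ⟨fun z => if z = x ∨ z = m x then γ else φ z, fun z => ?_, fun z => ?_,
      fun a ha b hb hab => ?_⟩
    · have : (m z = x ∨ m z = m x) ↔ (z = x ∨ z = m x) := by
        have e1 := hm.inv z
        have e2 := hm.inv x
        grind
      simp only [this, f1]
    · dsimp only
      split_ifs
      · exact ⟨g1, g2⟩
      · exact f2 z
    · have e1 := FF_ne hab
      have e2 := hp a
      have e3 := hp b
      have e4 := hq a
      have e5 := hq b
      have e6 := hab.symm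
      have e7 := f3 a
      simp only [Finset.mem_erase] at e7
      dsimp only
      split_ifs <;> grind

theorem colourM [Fintype V] {G : SimpleGraph V} {m : V → V} (hm : MS G m) (u : V)
    (hcl : ∀ A : Finset V, Closed G A → u ∉ A → ∀ a ∈ A, ∀ b, ¬ G.Adj a b) :
    ∃ φ : V → ℕ, (∀ z, φ (m z) = φ z) ∧ (∀ z, 2 ≤ φ z ∧ φ z < 6) ∧
      ∀ a b, a ≠ u → a ≠ m u → b ≠ u → b ≠ m u → m a ≠ a → m b ≠ b → (FF G m).Adj a b →
        φ a ≠ φ b := by
  obtain ⟨φ, f1, f2, f3⟩ := colourA hm u hcl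
    (Finset.univ.filter fun a => m a ≠ a ∧ a ≠ u ∧ a ≠ m u) (fun a ha => by
      simp only [Finset.mem_filter, Finset.mem_univ, true_and] at ha ⊢
      have e1 := hm.inv a
      have e2 := hm.inv u
      grind)
  refine ⟨φ, f1, f2, fun a b h1 h2 h3 h4 h5 h6 => f3 a ?_ b ?_⟩
  · simp [h1, h2, h5]
  · simp [h3, h4, h6]

noncomputable def base (m : V → V) (φ : V → ℕ) : V → V → ℕ :=
  fun a b => if m a = b then φ a else 0

theorem base_m (m : V → V) (φ : V → ℕ) (z : V) : base m φ z (m z) = φ z := by simp [base]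

theorem base_pv [Fintype V] {G : SimpleGraph V} {m : V → V} (hm : MS G m) {φ : V → ℕ}
    (h1 : ∀ z, φ (m z) = φ z) (h2 : ∀ z, φ z < 6)
    (h3 : ∀ a b, m a ≠ a → m b ≠ b → (FF G m).Adj a b → 2 ≤ φ a → φ a ≠ φ b) :
    PV G (KK G m Finset.univ) (base m φ) := by
  have hk : ∀ a b, (KK G m Finset.univ).Adj a b → b = m a ∧ m a ≠ a := by
    intro a b h
    rcases KK_cases hm h with ⟨_, h⟩ | h
    · exact (h (Finset.mem_univ _)).elim
    · exact h
  refine ⟨fun a b => ?_, fun a b => ?_, fun a b y hb hy hne => ?_,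
    fun a b x y hab hax hxy hbx hya => ?_⟩
  · unfold base
    have e1 := hm.inv a
    have e2 := hm.inv b
    have e3 := h1 a
    split_ifs <;> grind
  · unfold base
    have := h2 a
    split_ifs <;> omega
  · exact (hne ((hk _ _ hb).1.trans (hk _ _ hy).1.symm)).elim
  · obtain ⟨rfl, e1⟩ := hk _ _ hab
    obtain ⟨rfl, e2⟩ := hk _ _ hxy
    rw [base_m, base_m]
    exact h3 a x e1 e2 ⟨hax, hbx, hya⟩

noncomputable def setc (m : V → V) (φ : V → ℕ) (u : V) (γ : ℕ) : V → ℕ :=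
  fun z => if z = u ∨ z = m u then γ else φ z

theorem setc_eq (m : V → V) (φ : V → ℕ) (u : V) (γ : ℕ) (z : V) :
    ((z = u ∨ z = m u) ∧ setc m φ u γ z = γ) ∨ (z ≠ u ∧ z ≠ m u ∧ setc m φ u γ z = φ z) := by
  unfold setc
  split_ifs with h
  · exact Or.inl ⟨h, rfl⟩
  · exact Or.inr ⟨fun h' => h (Or.inl h'), fun h' => h (Or.inr h'), rfl⟩

theorem setc_pv [Fintype V] {G : SimpleGraph V} {m : V → V} (hm : MS G m) {φ : V → ℕ} {u : V}
    (f1 : ∀ z, φ (m z) = φ z) (f2 : ∀ z, 2 ≤ φ z ∧ φ z < 6)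
    (f3 : ∀ a b, a ≠ u → a ≠ m u → b ≠ u → b ≠ m u → m a ≠ a → m b ≠ b → (FF G m).Adj a b →
        φ a ≠ φ b) {γ : ℕ} (g1 : γ < 6)
    (g2 : ∀ z, (FF G m).Adj u z ∨ (FF G m).Adj (m u) z → m z ≠ z → φ z ≠ γ) :
    PV G (KK G m Finset.univ) (base m (setc m φ u γ)) := by
  refine base_pv hm (fun z => ?_) (fun z => ?_) fun a b ha hb hab => ?_
  · have e1 := hm.inv z
    have e2 := hm.inv u
    have e3 := f1 z
    rcases setc_eq m φ u γ z with h | h <;> rcases setc_eq m φ u γ (m z) with h' | h' <;> grind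
  · have := f2 z
    rcases setc_eq m φ u γ z with h | h <;> omega
  · have e1 := FF_ne hab
    have e2 := g2 a
    have e3 := g2 b
    have e4 := hab.symm
    have e5 := f3 a b
    rcases setc_eq m φ u γ a with h | h <;> rcases setc_eq m φ u γ b with h' | h' <;> grind

theorem closed_univ [Fintype V] (K : SimpleGraph V) : Closed K ((Finset.univ : Finset V) : Set V) :=
  fun _ _ _ _ => by simp

/-- the pendant edge keeps an induced colour -/
theorem init_two [Fintype V] {G : SimpleGraph V} {m : V → V} (hm : MS G m) {r : V}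
    (hl : ∀ w, ¬ (FF G m).Adj (m r) w)
    (hcl : ∀ A : Finset V, Closed G A → r ∉ A → ∀ a ∈ A, ∀ b, ¬ G.Adj a b) :
    ∃ c, PV G G c ∧ 2 ≤ c r (m r) ∧
      ∀ a b, (FF G m).Adj r a → (FF G m).Adj r b → a ≠ b → c r a < 2 ∨ c r b < 2 := by
  obtain ⟨φ, f1, f2, f3⟩ := colourM hm r hcl
  obtain ⟨p, q, hq⟩ := two_val (P := fun b => (FF G m).Adj r b) (hm.deg r) φ
  obtain ⟨γ, g1, g2, g3, g4, -⟩ := avoid3 p q 0
  have pv := setc_pv hm f1 f2 f3 g2 (fun z hz _ => by
    rcases hz with hz | hz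
    · have := hq z hz
      omega
    · exact (hl z hz).elim)
  obtain ⟨c, st, e⟩ := extend hm Finset.univ _ ⟨closed_univ _, pv, fun z _ _ _ => by
    rw [base_m]
    have := f2 z
    rcases setc_eq m φ r γ z with h | h <;> omega, fun z a b hz => (hz (Finset.mem_univ _)).elim⟩
  refine ⟨c, st.valid, ?_, fun a b => st.one r a b (by simp)⟩
  have e1 := e (m r) hl
  rw [base_m, hm.inv, st.pv.symm] at e1
  rw [e1]
  simp [setc, g1]

noncomputable def comp [Fintype V] (F : SimpleGraph V) (x : V) : Finset V :=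
  Finset.univ.filter fun z => F.Reachable x z

theorem mem_comp [Fintype V] (F : SimpleGraph V) (x z : V) : z ∈ comp F x ↔ F.Reachable x z := by
  simp [comp]

theorem comp_closed [Fintype V] (F : SimpleGraph V) (x : V) : Closed F (comp F x) := by
  intro a b ha hab
  rw [Finset.mem_coe, mem_comp] at ha ⊢
  exact ha.trans hab.reachable

theorem twoCol_comp [Fintype V] {F : SimpleGraph V} (h2 : Deg2 F) {x y : V} (hxy : F.Adj x y) :
    ∃ t, Proper2 (del (res F (comp F x)) x y) t := by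
  refine twoCol_del h2 (comp_closed F x) ((mem_comp F x x).2 (SimpleGraph.Reachable.refl x)) hxy ?_
  intro Z hZ hx hZc _
  rcases Z.eq_empty_or_nonempty with rfl | ⟨z, hz⟩
  · simp
  · exact (hx (hZc.mem_of_reach hz ((mem_comp F x z).1 (hZ hz)).symm)).elim

/-- the pendant edge gets a matching colour -/
theorem init_one [Fintype V] {G : SimpleGraph V} {m : V → V} (hm : MS G m) {r : V}
    (hl : ∀ w, ¬ (FF G m).Adj (m r) w)
    (hcl : ∀ A : Finset V, Closed G A → r ∉ A → ∀ a ∈ A, ∀ b, ¬ G.Adj a b) :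
    ∃ c, PV G G c ∧ c r (m r) < 2 := by
  obtain ⟨φ, f1, f2, f3⟩ := colourM hm r hcl
  have pv : ∀ γ, γ < 2 → PV G (KK G m Finset.univ) (base m (setc m φ r γ)) := fun γ hγ =>
    setc_pv hm f1 f2 f3 (by omega) (fun z _ _ => by have := f2 z; omega)
  have fin : ∀ γ, γ < 2 → ∀ U c, State G m U c → c (m r) (m (m r)) = setc m φ r γ (m r) →
      ∃ c, PV G G c ∧ c r (m r) < 2 := by
    intro γ hγ U c st e0
    obtain ⟨c', st', e⟩ := extend hm U c st
    refine ⟨c', st'.valid, ?_⟩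
    have e1 := e (m r) hl
    rw [e0, hm.inv, st'.pv.symm] at e1
    rw [e1]
    simp [setc, hγ]
  have mty : ∀ γ z, z ≠ r → (∃ w, (FF G m).Adj z w) → 2 ≤ base m (setc m φ r γ) z (m z) := by
    intro γ z hz hw
    rw [base_m]
    have := f2 z
    obtain ⟨w, hw⟩ := hw
    have := hl w
    rcases setc_eq m φ r γ z with h | h <;> grind
  by_cases hr : ∃ y, (FF G m).Adj r y
  · obtain ⟨y, hy⟩ := hr
    obtain ⟨t, ht⟩ := twoCol_comp hm.deg hy
    obtain ⟨τ, hτ⟩ := one_val (other_unique hm.deg hy) (t r)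
    obtain ⟨p, hp⟩ := one_val (other_unique hm.deg hy) φ
    obtain ⟨q, hq⟩ := one_val (other_unique hm.deg hy.symm) φ
    obtain ⟨d, d1, d2, d3, d4, d5⟩ := avoid3 p q (φ y)
    have hγ : 1 - τ < 2 := by omega
    have key : ∀ z, φ z ≠ d → base m (setc m φ r (1 - τ)) z (m z) ≠ d := by
      intro z hz
      rw [base_m]
      rcases setc_eq m φ r (1 - τ) z with h | h <;> omega
    obtain ⟨c, st, e⟩ := step_one hm (closed_univ _) (comp_closed _ r) (Finset.subset_univ _)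
      (pv _ hγ) ((mem_comp _ r r).2 (SimpleGraph.Reachable.refl r)) hy
      (fun z _ hz _ hw => mty _ z hz hw) (fun z a b hz => (hz (Finset.mem_univ _)).elim) ht d1 d2
      (fun _ => by
        rw [base_m]
        have e0 : setc m φ r (1 - τ) r = 1 - τ := by simp [setc]
        rw [e0]
        refine ⟨by omega, fun z hz hzy => ?_⟩
        have e1 := hτ z ⟨hz, hzy⟩
        have e2 := ht.2.1 r z
        omega)
      (fun _ => key y d5.symm)
      (fun z hz hzy _ => key z (by rw [hp z ⟨hz, hzy⟩]; exact d3.symm))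
      (fun z hz hzy _ => key z (by rw [hq z ⟨hz, hzy⟩]; exact d4.symm))
      (fun w h => (h (Finset.mem_univ _)).elim) (fun w h => (h (Finset.mem_univ _)).elim)
    exact fin _ hγ _ c st (by rw [e, base_m])
  · exact fin 0 (by omega) Finset.univ _ ⟨closed_univ _, pv 0 (by omega),
      fun z _ _ hw => mty 0 z (fun h => hr (h ▸ hw)) hw,
      fun z a b hz => (hz (Finset.mem_univ _)).elim⟩ (base_m _ _ _)

end Pool.Agent.MP_5d33c3_co.H12
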