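import Pool.Agent.MP_5d33c3_co.H12.Basic

namespace Pool.Agent.MP_5d33c3_co.H12

open Classical

variable {V : Type}

theorem tutte' {W : Type} [Fintype W] (Γ : SimpleGraph W) (hev : Even (Fintype.card W))
    (h : ∀ (S : Finset W) (𝒦 : Finset (Finset W)),
      (∀ K ∈ 𝒦, ∀ K' ∈ 𝒦, K ≠ K' → Disjoint K K') → (∀ K ∈ 𝒦, Odd K.card) →
      (∀ K ∈ 𝒦, ∀ a ∈ K, a ∉ S ∧ ∀ b, Γ.Adj a b → b ∈ K ∨ b ∈ S) → 𝒦.card ≤ S.card + 1) :
    ∃ μ : W → W, (∀ w, μ (μ w) = w) ∧ ∀ w, Γ.Adj w (μ w) := by
  have : ∃ M : Γ.Subgraph, M.IsPerfectMatching := by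
    rw [SimpleGraph.tutte]
    intro u hu
    unfold SimpleGraph.IsTutteViolator at hu
    set H := ((⊤ : Γ.Subgraph).deleteVerts u).coe with hH
    let f : H.ConnectedComponent → Finset W := fun c => (Subtype.val '' c.supp).toFinset
    have hf : ∀ c a, a ∈ f c ↔ ∃ ha, (⟨a, ha⟩ : ((⊤ : Γ.Subgraph).deleteVerts u).verts) ∈ c.supp := by
      intro c a
      simp [f]
    have hdisj : ∀ c c', c ≠ c' → Disjoint (f c) (f c') := by
      intro c c' hne
      rw [Finset.disjoint_left]
      intro a ha ha'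
      obtain ⟨h1, h2⟩ := (hf c a).1 ha
      obtain ⟨h1', h2'⟩ := (hf c' a).1 ha'
      exact hne (SimpleGraph.ConnectedComponent.eq_of_common_vertex h2 h2')
    have hinj : Function.Injective f := by
      intro c c' he
      by_contra hne
      obtain ⟨a, ha⟩ := c.nonempty_supp
      have h1 : a.1 ∈ f c := (hf c a.1).2 ⟨a.2, ha⟩
      exact Finset.disjoint_left.1 (hdisj c c' hne) h1 (he ▸ h1)
    have hcard : ∀ c, (f c).card = c.supp.ncard := by
      intro c
      rw [← Set.ncard_image_of_injective _ Subtype.val_injective, Set.ncard_eq_toFinset_card']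
    have key := h u.toFinset (H.oddComponents.toFinset.image f) (by
        intro K hK K' hK' hne
        obtain ⟨c, -, rfl⟩ := Finset.mem_image.1 hK
        obtain ⟨c', -, rfl⟩ := Finset.mem_image.1 hK'
        exact hdisj c c' fun e => hne (by rw [e])) (by
        intro K hK
        obtain ⟨c, hc, rfl⟩ := Finset.mem_image.1 hK
        rw [hcard]
        simpa using hc) (by
        intro K hK a ha
        obtain ⟨c, -, rfl⟩ := Finset.mem_image.1 hK
        obtain ⟨h1, h2⟩ := (hf c a).1 ha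
        refine ⟨by simpa using h1, fun b hab => ?_⟩
        by_cases hb : b ∈ u
        · exact Or.inr (by simpa using hb)
        · left
          have hb' : b ∈ ((⊤ : Γ.Subgraph).deleteVerts u).verts := by simpa using hb
          refine (hf c b).2 ⟨hb', ?_⟩
          refine (c.mem_supp_congr_adj (v := ⟨a, h1⟩) (w := ⟨b, hb'⟩) ?_).1 h2
          simp only [hH, SimpleGraph.Subgraph.coe_adj, SimpleGraph.Subgraph.deleteVerts_adj]
          simpa [hb, hab] using h1)
    rw [Finset.card_image_of_injective _ hinj, ← Set.ncard_eq_toFinset_card',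
      ← Set.ncard_eq_toFinset_card'] at key
    have par := H.odd_ncard_oddComponents
    have hc : Nat.card ((⊤ : Γ.Subgraph).deleteVerts u).verts + u.ncard = Fintype.card W := by
      rw [Nat.card_coe_set_eq]
      have : ((⊤ : Γ.Subgraph).deleteVerts u).verts = uᶜ := by
        ext a
        simp
      rw [this, add_comm, Set.ncard_add_ncard_compl, Nat.card_eq_fintype_card]
    rw [Nat.odd_iff, Nat.odd_iff] at par
    rw [Nat.even_iff] at hev
    omega
  obtain ⟨M, hM⟩ := this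
  rw [SimpleGraph.Subgraph.isPerfectMatching_iff] at hM
  choose μ h1 h2 using hM
  exact ⟨μ, fun w => (h2 (μ w) w (h1 w).symm).symm, fun w => M.adj_sub (h1 w)⟩

def ThreeNb (G : SimpleGraph V) (a : V) : Prop :=
  ∃ b c d, G.Adj a b ∧ G.Adj a c ∧ G.Adj a d ∧ b ≠ c ∧ b ≠ d ∧ c ≠ d

theorem card_le_three [Fintype V] {G : SimpleGraph V} (h3 : Deg3 G) (a : V) :
    (G.neighborFinset a).card ≤ 3 := by
  by_contra h
  obtain ⟨b, c, d, e, hb, hc, hd, he, h'⟩ := Finset.three_lt_card_iff.1 (not_le.1 h)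
  simp only [SimpleGraph.mem_neighborFinset] at hb hc hd he
  have := h3 a b c d e hb hc hd he
  tauto

theorem card_eq_three [Fintype V] {G : SimpleGraph V} (h3 : Deg3 G) {a : V} (h : ThreeNb G a) :
    (G.neighborFinset a).card = 3 := by
  refine le_antisymm (card_le_three h3 a) ?_
  obtain ⟨b, c, d, hb, hc, hd, h'⟩ := h
  exact Finset.two_lt_card_iff.2 ⟨b, c, d, by simpa using hb, by simpa using hc, by simpa using hd,
    h'⟩

/-- the darts leaving a set -/
noncomputable def out [Fintype V] (G : SimpleGraph V) (K : Finset V) : Finset (V × V) :=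
  Finset.univ.filter fun p => p.1 ∈ K ∧ p.2 ∉ K ∧ G.Adj p.1 p.2

theorem mem_out [Fintype V] (G : SimpleGraph V) (K : Finset V) (p : V × V) :
    p ∈ out G K ↔ p.1 ∈ K ∧ p.2 ∉ K ∧ G.Adj p.1 p.2 := by simp [out]

theorem card_darts [Fintype V] (G : SimpleGraph V) (K : Finset V) :
    (Finset.univ.filter fun p : V × V => p.1 ∈ K ∧ G.Adj p.1 p.2).card =
      ∑ a ∈ K, (G.neighborFinset a).card := by
  rw [Finset.card_eq_sum_card_fiberwise (f := Prod.fst) (t := K)
    (fun p hp => by simpa using (Finset.mem_filter.1 hp).2.1)]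
  refine Finset.sum_congr rfl fun a ha => ?_
  refine Finset.card_bij (fun p _ => p.2) ?_ ?_ ?_
  · intro p hp
    simp only [Finset.mem_filter, Finset.mem_univ, true_and] at hp
    simpa [← hp.2] using hp.1.2
  · intro p hp q hq he
    simp only [Finset.mem_filter, Finset.mem_univ, true_and] at hp hq
    exact Prod.ext (hp.2.trans hq.2.symm) he
  · intro b hb
    exact ⟨(a, b), by simpa [ha] using hb, rfl⟩

theorem out_odd [Fintype V] {G : SimpleGraph V} (h3 : Deg3 G) (K : Finset V)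
    (hK : ∀ a ∈ K, ThreeNb G a) (hodd : Odd K.card) : Odd (out G K).card := by
  have e1 := card_darts G K
  rw [Finset.sum_congr rfl fun a ha => card_eq_three h3 (hK a ha)] at e1
  have e2 := card_darts (res G K) Finset.univ
  simp only [SimpleGraph.card_neighborFinset_eq_degree] at e2
  rw [SimpleGraph.sum_degrees_eq_twice_card_edges] at e2
  have e3 := Finset.card_filter_add_card_filter_not
    (s := Finset.univ.filter fun p : V × V => p.1 ∈ K ∧ G.Adj p.1 p.2) (fun p => p.2 ∈ K)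
  have e4 : ((Finset.univ.filter fun p : V × V => p.1 ∈ K ∧ G.Adj p.1 p.2).filter
      fun p => ¬ p.2 ∈ K) = out G K := by
    ext p
    simp only [Finset.mem_filter, Finset.mem_univ, true_and, mem_out]
    tauto
  have e5 : ((Finset.univ.filter fun p : V × V => p.1 ∈ K ∧ G.Adj p.1 p.2).filter
      fun p => p.2 ∈ K) =
      Finset.univ.filter fun p : V × V => p.1 ∈ (Finset.univ : Finset V) ∧
        (res G K).Adj p.1 p.2 := by
    ext p
    simp only [Finset.mem_filter, Finset.mem_univ, true_and, res_adj, Finset.mem_coe]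
    tauto
  rw [e4, e5, e2, e1] at e3
  simp only [Finset.sum_const, smul_eq_mul] at e3
  rw [Nat.odd_iff] at hodd ⊢
  omega

theorem exists_matching [Fintype V] {G : SimpleGraph V} (h3 : Deg3 G) (X : Finset V)
    (hX : (out G X).card ≤ 2)
    (hK : ∀ K : Finset V, (∀ a ∈ K, a ∉ X ∧ ThreeNb G a) → K.Nonempty → (out G K).card ≠ 1) :
    ∃ m : V → V, (∀ x, m (m x) = x) ∧ (∀ x, m x ≠ x → G.Adj x (m x)) ∧ (∀ x ∈ X, m x = x) ∧
      ∀ x, x ∉ X → ThreeNb G x → m x ≠ x := by
  let low : V ⊕ V → Prop := fun w => ∀ a, w = Sum.inl a → a ∈ X ∨ ¬ ThreeNb G a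
  let Γ : SimpleGraph (V ⊕ V) :=
    { Adj := fun w w' => (∃ a b, w = Sum.inl a ∧ w' = Sum.inl b ∧ G.Adj a b ∧ a ∉ X ∧ b ∉ X) ∨
        (low w ∧ low w' ∧ w ≠ w')
      symm := ⟨by
        rintro w w' (⟨a, b, h1, h2, h3, h4, h5⟩ | ⟨h1, h2, h3⟩)
        · exact Or.inl ⟨b, a, h2, h1, h3.symm, h5, h4⟩
        · exact Or.inr ⟨h2, h1, h3.symm⟩⟩
      loopless := ⟨by
        rintro w (⟨a, b, h1, h2, h3, h4, h5⟩ | ⟨h1, h2, h3⟩)
        · exact h3.ne (Sum.inl_injective (h1.symm.trans h2))
        · exact h3 rfl⟩ }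
  obtain ⟨μ, hμ1, hμ2⟩ := tutte' Γ (by simp) (by
    intro S 𝒦 hd ho hc
    let 𝒦1 := 𝒦.filter fun K => ∃ w ∈ K, low w
    let 𝒦2 := 𝒦.filter fun K => ¬ ∃ w ∈ K, low w
    have c0 : 𝒦1.card + 𝒦2.card = 𝒦.card := Finset.card_filter_add_card_filter_not _
    have c1 : 𝒦1.card ≤ 1 := by
      rw [Finset.card_le_one]
      intro K hK K' hK'
      obtain ⟨hK, w, hw, lw⟩ := Finset.mem_filter.1 hK
      obtain ⟨hK', w', hw', lw'⟩ := Finset.mem_filter.1 hK'
      by_contra hne
      have hdis := Finset.disjoint_left.1 (hd K hK K' hK' hne)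
      have hww : w ≠ w' := fun e => hdis hw (e ▸ hw')
      rcases (hc K hK w hw).2 w' (Or.inr ⟨lw, lw', hww⟩) with h | h
      · exact hdis h hw'
      · exact (hc K' hK' w' hw').1 h
    let g : Finset (V ⊕ V) → Finset V := fun K => Finset.univ.filter fun a => Sum.inl a ∈ K
    have hg : ∀ K a, a ∈ g K ↔ Sum.inl a ∈ K := by simp [g]
    have hhigh : ∀ K ∈ 𝒦2, ∀ w ∈ K, ∃ a, w = Sum.inl a ∧ a ∉ X ∧ ThreeNb G a := by
      intro K hK w hw
      have : ¬ low w := fun h => (Finset.mem_filter.1 hK).2 ⟨w, hw, h⟩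
      simp only [low] at this
      push Not at this
      exact this
    have hg3 : ∀ K ∈ 𝒦2, ∀ a ∈ g K, a ∉ X ∧ ThreeNb G a := by
      intro K hK a ha
      obtain ⟨b, hb, h⟩ := hhigh K hK _ ((hg K a).1 ha)
      rw [Sum.inl_injective hb]
      exact h
    have hgc : ∀ K ∈ 𝒦2, (g K).card = K.card := by
      intro K hK
      refine Finset.card_bij (fun a _ => Sum.inl a) (fun a ha => (hg K a).1 ha)
        (fun a _ b _ h => Sum.inl_injective h) fun w hw => ?_
      obtain ⟨a, rfl, -⟩ := hhigh K hK w hw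
      exact ⟨a, (hg K a).2 hw, rfl⟩
    have h3' : ∀ K ∈ 𝒦2, 3 ≤ (out G (g K)).card := by
      intro K hK'
      have o1 : Odd (g K).card := by
        rw [hgc K hK']
        exact ho K (Finset.mem_filter.1 hK').1
      have o2 := out_odd h3 (g K) (fun a ha => (hg3 K hK' a ha).2) o1
      have o3 := hK (g K) (hg3 K hK') (Finset.card_pos.1 o1.pos)
      rw [Nat.odd_iff] at o2
      omega
    have c2 : 3 * 𝒦2.card ≤ (𝒦2.biUnion fun K => out G (g K)).card := by
      rw [Finset.card_biUnion]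
      · rw [mul_comm, ← smul_eq_mul, ← Finset.sum_const]
        exact Finset.sum_le_sum h3'
      · intro K hK K' hK' hne
        have hdis := Finset.disjoint_left.1
          (hd K (Finset.mem_filter.1 hK).1 K' (Finset.mem_filter.1 hK').1 hne)
        refine Finset.disjoint_left.2 fun p hp hp' => ?_
        rw [mem_out, hg] at hp hp'
        exact hdis hp.1 hp'.1
    have c3 : (𝒦2.biUnion fun K => out G (g K)) ⊆
        ((Finset.univ.filter fun p : V × V => p.1 ∈ g S ∧ G.Adj p.1 p.2) ∪ out G X).image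
          Prod.swap := by
      intro p hp
      obtain ⟨K, hK, hp⟩ := Finset.mem_biUnion.1 hp
      rw [mem_out] at hp
      refine Finset.mem_image.2 ⟨p.swap, ?_, by simp⟩
      rw [Finset.mem_union, mem_out]
      by_cases hx : p.2 ∈ X
      · exact Or.inr ⟨hx, (hg3 K hK _ hp.1).1, hp.2.2.symm⟩
      · left
        simp only [Finset.mem_filter, Finset.mem_univ, true_and, Prod.fst_swap, Prod.snd_swap]
        refine ⟨?_, hp.2.2.symm⟩
        rcases (hc K (Finset.mem_filter.1 hK).1 _ ((hg K _).1 hp.1)).2 (Sum.inl p.2)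
          (Or.inl ⟨p.1, p.2, rfl, rfl, hp.2.2, (hg3 K hK _ hp.1).1, hx⟩) with h | h
        · exact (hp.2.1 ((hg K _).2 h)).elim
        · exact (hg S _).2 h
    have c4 := (Finset.card_le_card c3).trans (Finset.card_image_le.trans (Finset.card_union_le _ _))
    rw [card_darts] at c4
    have c5 : ∑ a ∈ g S, (G.neighborFinset a).card ≤ 3 * (g S).card := by
      rw [mul_comm, ← smul_eq_mul, ← Finset.sum_const]
      exact Finset.sum_le_sum fun a _ => card_le_three h3 a
    have c6 : (g S).card ≤ S.card :=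
      Finset.card_le_card_of_injOn (fun a => Sum.inl a) (fun a ha => (hg S a).1 ha)
        (fun a _ b _ h => Sum.inl_injective h)
    omega)
  let P : V → V → Prop := fun a b => μ (Sum.inl a) = Sum.inl b ∧ G.Adj a b ∧ a ∉ X ∧ b ∉ X
  have Psymm : ∀ a b, P a b → P b a := by
    rintro a b ⟨h1, h2, h3, h4⟩
    exact ⟨by rw [← h1, hμ1], h2.symm, h4, h3⟩
  have Puniq : ∀ a b c, P a b → P a c → b = c := fun a b c hb hc =>
    Sum.inl_injective (hb.1.symm.trans hc.1)
  let m : V → V := fun a => if h : ∃ b, P a b then h.choose else a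
  have hm1 : ∀ a b, P a b → m a = b := by
    intro a b h
    have h' : ∃ b, P a b := ⟨b, h⟩
    simp only [m, dif_pos h']
    exact Puniq a _ _ h'.choose_spec h
  have hm2 : ∀ a, (∃ b, P a b ∧ m a = b) ∨ ((¬ ∃ b, P a b) ∧ m a = a) := by
    intro a
    by_cases h : ∃ b, P a b
    · obtain ⟨b, hb⟩ := h
      exact Or.inl ⟨b, hb, hm1 a b hb⟩
    · exact Or.inr ⟨h, by simp only [m, dif_neg h]⟩
  refine ⟨m, fun a => ?_, fun a ha => ?_, fun a ha => ?_, fun a ha ha3 => ?_⟩
  · rcases hm2 a with ⟨b, hb, e⟩ | ⟨_, e⟩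
    · rw [e]
      exact hm1 b a (Psymm a b hb)
    · rw [e, e]
  · rcases hm2 a with ⟨b, hb, e⟩ | ⟨_, e⟩
    · rw [e]
      exact hb.2.1
    · exact (ha e).elim
  · rcases hm2 a with ⟨b, hb, e⟩ | ⟨_, e⟩
    · exact (hb.2.2.1 ha).elim
    · exact e
  · rcases hμ2 (Sum.inl a) with ⟨a', b, h1, h2, h4, h5, h6⟩ | ⟨h1, -⟩
    · obtain rfl := Sum.inl_injective h1
      rw [hm1 a b ⟨h2, h4, h5, h6⟩]
      exact h4.ne.symm
    · rcases h1 a rfl with h | h
      · exact (ha h).elim
      · exact (h ha3).elim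

end Pool.Agent.MP_5d33c3_co.H12
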