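import Pool.Agent.MP_5d33c3_co.H12.Cubic
import Pool.Agent.MP_5d33c3_co.H12.Match

namespace Pool.Agent.MP_5d33c3_co.H12

open Classical

variable {V : Type}

def TP (π : ℕ → ℕ) : Prop :=
  Function.Injective π ∧ (∀ n, n < 6 → π n < 6) ∧ ∀ n, 2 ≤ π n ↔ 2 ≤ n

theorem TP.swap {p q : ℕ} (h : (p < 2 ∧ q < 2) ∨ (2 ≤ p ∧ p < 6 ∧ 2 ≤ q ∧ q < 6)) :
    TP (Equiv.swap p q) := by
  refine ⟨(Equiv.swap p q).injective, fun n hn => ?_, fun n => ?_⟩
  · rw [Equiv.swap_apply_def]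
    split_ifs <;> omega
  · rw [Equiv.swap_apply_def]
    split_ifs <;> omega

theorem TP.comp {π ρ : ℕ → ℕ} (h1 : TP π) (h2 : TP ρ) : TP (π ∘ ρ) :=
  ⟨h1.1.comp h2.1, fun n hn => h1.2.1 _ (h2.2.1 n hn), fun n => (h1.2.2 _).trans (h2.2.2 n)⟩

theorem exists_TP {s t x1 x2 y1 y2 : ℕ} (hs : s < 2) (ht : t < 2) (h1 : 2 ≤ x1 ∧ x1 < 6)
    (h2 : 2 ≤ x2 ∧ x2 < 6) (h3 : 2 ≤ y1 ∧ y1 < 6) (h4 : 2 ≤ y2 ∧ y2 < 6) (hx : x1 ≠ x2)
    (hy : y1 ≠ y2) : ∃ π, TP π ∧ π s = t ∧ π x1 = y1 ∧ π x2 = y2 := by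
  have e : 2 ≤ Equiv.swap x1 y1 x2 ∧ Equiv.swap x1 y1 x2 < 6 := by
    rw [Equiv.swap_apply_def]
    split_ifs <;> omega
  refine ⟨_, (TP.swap (p := Equiv.swap x1 y1 x2) (q := y2) (by omega)).comp
    ((TP.swap (p := x1) (q := y1) (by omega)).comp (TP.swap (p := s) (q := t) (by omega))),
    ?_, ?_, ?_⟩
  all_goals
    simp only [Function.comp, Equiv.swap_apply_def]
    split_ifs <;> omega

def side (G : SimpleGraph V) (A : Set V) : SimpleGraph V where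
  Adj a b := G.Adj a b ∧ (a ∈ A ∨ b ∈ A)
  symm := ⟨fun _ _ h => ⟨h.1.symm, h.2.symm⟩⟩
  loopless := ⟨fun a h => G.loopless.1 a h.1⟩

def OneCut (G : SimpleGraph V) (A : Set V) : Prop :=
  ∀ a b a' b', G.Adj a b → a ∈ A → b ∉ A → G.Adj a' b' → a' ∈ A → b' ∉ A → a = a' ∧ b = b'

def Good (G : SimpleGraph V) : Prop :=
  (∃ c, PV G G c) ∧ ∀ r l, G.Adj r l → (∀ z, G.Adj l z → z = r) →
    (∃ c, PV G G c ∧ c r l < 2) ∧
    (∃ c, PV G G c ∧ 2 ≤ c r l ∧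
      ∀ a b, G.Adj r a → G.Adj r b → a ≠ l → b ≠ l → a ≠ b → c r a < 2 ∨ c r b < 2)

theorem glue0 {G : SimpleGraph V} {A : Set V} (hA : OneCut G A) {c1 c2 : V → V → ℕ}
    (h1 : PV (side G A) (side G A) c1) (h2 : PV (side G Aᶜ) (side G Aᶜ) c2) {π : ℕ → ℕ}
    (hπ : TP π) (e1 : ∀ u v, G.Adj u v → u ∈ A → v ∉ A → π (c2 u v) = c1 u v)
    (e2 : ∀ u v b y, G.Adj u v → u ∈ A → v ∉ A → G.Adj u b → b ≠ v → G.Adj v y → y ≠ u →
      2 ≤ c1 u b → c1 u b ≠ π (c2 v y)) :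
    ∃ c, PV G G c ∧ ∀ a b, a ∈ A → c a b = c1 a b := by
  let c : V → V → ℕ := fun a b => if a ∈ A ∨ b ∈ A then c1 a b else π (c2 a b)
  have hin : ∀ a b, a ∈ A → c a b = c1 a b := by
    intro a b ha
    simp only [c, ha, true_or, if_true]
  have hout : ∀ a b, a ∉ A → G.Adj a b → c a b = π (c2 a b) := by
    intro a b ha hab
    by_cases hb : b ∈ A
    · simp only [c, hb, or_true, if_true]
      rw [h1.symm, h2.symm, e1 b a hab.symm hb ha]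
    · simp only [c, ha, hb, or_self, if_false]
  refine ⟨c, ⟨fun a b => ?_, fun a b => ?_, fun a b y hb hy hne => ?_,
    fun a b x y hab hax hxy hbx hya => ?_⟩, hin⟩
  · simp only [c, or_comm (a := a ∈ A), h1.symm a b, h2.symm a b]
  · simp only [c]
    split_ifs
    · exact h1.lt a b
    · exact hπ.2.1 _ (h2.lt a b)
  · by_cases ha : a ∈ A
    · rw [hin _ _ ha, hin _ _ ha]
      exact h1.v1 a b y ⟨hb, Or.inl ha⟩ ⟨hy, Or.inl ha⟩ hne
    · rw [hout _ _ ha hb, hout _ _ ha hy]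
      exact fun h => h2.v1 a b y ⟨hb, Or.inl ha⟩ ⟨hy, Or.inl ha⟩ hne (hπ.1 h)
  · by_cases ha : a ∈ A <;> by_cases hx : x ∈ A
    · rw [hin _ _ ha, hin _ _ hx]
      exact h1.v2 a b x y ⟨hab, Or.inl ha⟩ ⟨hax, Or.inl ha⟩ ⟨hxy, Or.inl hx⟩ hbx hya
    · rw [hin _ _ ha, hout _ _ hx hxy]
      exact e2 a x b y hax ha hx hab hbx hxy hya
    · rw [hout _ _ ha hab, hin _ _ hx]
      intro h2 he
      exact e2 x a y b hax.symm hx ha hxy hya hab hbx (he ▸ h2) he.symm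
    · rw [hout _ _ ha hab, hout _ _ hx hxy, hπ.2.2]
      exact fun h3 h => h2.v2 a b x y ⟨hab, Or.inl ha⟩ ⟨hax, Or.inl ha⟩ ⟨hxy, Or.inl hx⟩ hbx hya
        h3 (hπ.1 h)

theorem two_other {G : SimpleGraph V} (h3 : Deg3 G) {u v : V} (huv : G.Adj u v) :
    ∀ b c d, (G.Adj u b ∧ b ≠ v) → (G.Adj u c ∧ c ≠ v) → (G.Adj u d ∧ d ≠ v) →
      b = c ∨ b = d ∨ c = d := by
  intro b c d hb hc hd
  have := h3 u v b c d huv hb.1 hc.1 hd.1
  grind

theorem glue {G : SimpleGraph V} (h3 : Deg3 G) {A : Set V} (hA : OneCut G A) {c1 : V → V → ℕ}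
    (h1 : PV (side G A) (side G A) c1) (h2 : Good (side G Aᶜ)) :
    ∃ c, PV G G c ∧ ∀ a b, a ∈ A → c a b = c1 a b := by
  by_cases hcut : ∃ u v, G.Adj u v ∧ u ∈ A ∧ v ∉ A
  swap
  · obtain ⟨c2, h2⟩ := h2.1
    exact glue0 hA h1 h2 (π := id) ⟨Function.injective_id, fun _ h => h, fun _ => Iff.rfl⟩
      (fun u v h h' h'' => (hcut ⟨u, v, h, h', h''⟩).elim)
      (fun u v _ _ h h' h'' => (hcut ⟨u, v, h, h', h''⟩).elim)
  obtain ⟨u, v, huv, hu, hv⟩ := hcut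
  obtain ⟨⟨c2, p2, q2⟩, ⟨c3, p3, q3, r3⟩⟩ := h2.2 v u ⟨huv.symm, Or.inl hv⟩ (fun z hz => by
    have hzA : z ∉ A := hz.2.elim (fun h => (h hu).elim) id
    exact (hA u z u v hz.1 hu hzA huv hu hv).2)
  obtain ⟨a1, a2, ha⟩ := two_val (two_other h3 huv) (c1 u)
  by_cases hc : c1 u v < 2
  · obtain ⟨b1, b2, hb⟩ := two_val (two_other h3 huv.symm) (c2 v)
    obtain ⟨y1, g1, g2, g3, g4, -⟩ := avoid3 a1 a2 0
    obtain ⟨y2, k1, k2, k3, k4, k5⟩ := avoid3 a1 a2 y1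
    obtain ⟨x1, x2, hx1, hx2, hx, hb'⟩ : ∃ x1 x2, (2 ≤ x1 ∧ x1 < 6) ∧ (2 ≤ x2 ∧ x2 < 6) ∧ x1 ≠ x2 ∧
        ∀ n, n < 6 → 2 ≤ n → n = b1 ∨ n = b2 → n = x1 ∨ n = x2 := by
      by_cases e1 : 2 ≤ b1 ∧ b1 < 6
      · by_cases e2 : 2 ≤ b2 ∧ b2 < 6 ∧ b1 ≠ b2
        · exact ⟨b1, b2, e1, ⟨e2.1, e2.2.1⟩, e2.2.2, fun _ _ _ h => h⟩
        · obtain ⟨x, x1, x2, x3, -⟩ := avoid3 b1 0 0
          exact ⟨b1, x, e1, ⟨x1, x2⟩, x3.symm, fun n _ _ h => by omega⟩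
      · by_cases e2 : 2 ≤ b2 ∧ b2 < 6
        · obtain ⟨x, x1, x2, x3, -⟩ := avoid3 b2 0 0
          exact ⟨b2, x, e2, ⟨x1, x2⟩, x3.symm, fun n _ _ h => by omega⟩
        · exact ⟨2, 3, by omega, by omega, by omega, fun n _ _ h => by omega⟩
    obtain ⟨π, hπ, π1, π2, π3⟩ := exists_TP q2 hc hx1 hx2 ⟨g1, g2⟩ ⟨k1, k2⟩ hx k5.symm
    refine glue0 hA h1 p2 hπ (fun u' v' h h' h'' => ?_) fun u' v' b y h h' h'' hb1 hb2 hy1 hy2 => ?_
    · obtain ⟨rfl, rfl⟩ := hA u v u' v' huv hu hv h h' h''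
      rw [p2.symm, π1]
    · obtain ⟨rfl, rfl⟩ := hA u v u' v' huv hu hv h h' h''
      intro t2 he
      have f1 := ha b ⟨hb1, hb2⟩
      have f2 := (hπ.2.2 (c2 v y)).1 (he ▸ t2)
      rcases hb' _ (p2.lt v y) f2 (hb y ⟨hy1, hy2⟩) with f3 | f3
      · rw [f3, π2] at he
        omega
      · rw [f3, π3] at he
        omega
  · obtain ⟨x2, hx2, hx, hb'⟩ : ∃ x2, (2 ≤ x2 ∧ x2 < 6) ∧ c3 v u ≠ x2 ∧
        ∀ y, G.Adj v y → y ≠ u → 2 ≤ c3 v y → c3 v y = x2 := by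
      by_cases e : ∃ y, G.Adj v y ∧ y ≠ u ∧ 2 ≤ c3 v y
      · obtain ⟨y, y1, y2, y3⟩ := e
        refine ⟨c3 v y, ⟨y3, p3.lt v y⟩,
          p3.v1 v u y ⟨huv.symm, Or.inl hv⟩ ⟨y1, Or.inl hv⟩ y2.symm, fun z z1 z2 z3 => ?_⟩
        by_cases e : z = y
        · rw [e]
        · have := r3 z y ⟨z1, Or.inl hv⟩ ⟨y1, Or.inl hv⟩ z2 y2 e
          omega
      · obtain ⟨x, x1, x2, x3, -⟩ := avoid3 (c3 v u) 0 0
        exact ⟨x, ⟨x1, x2⟩, x3.symm, fun y y1 y2 y3 => (e ⟨y, y1, y2, y3⟩).elim⟩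
    obtain ⟨y2, k1, k2, k3, k4, k5⟩ := avoid3 a1 a2 (c1 u v)
    obtain ⟨π, hπ, -, π2, π3⟩ := exists_TP (s := 0) (t := 0) (by omega) (by omega)
      ⟨q3, p3.lt v u⟩ hx2 ⟨not_lt.1 hc, h1.lt u v⟩ ⟨k1, k2⟩ hx k5.symm
    refine glue0 hA h1 p3 hπ (fun u' v' h h' h'' => ?_) fun u' v' b y h h' h'' hb1 hb2 hy1 hy2 => ?_
    · obtain ⟨rfl, rfl⟩ := hA u v u' v' huv hu hv h h' h''
      rw [p3.symm, π2]
    · obtain ⟨rfl, rfl⟩ := hA u v u' v' huv hu hv h h' h''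
      intro t2 he
      have f1 := ha b ⟨hb1, hb2⟩
      have f2 := (hπ.2.2 (c3 v y)).1 (he ▸ t2)
      rw [hb' y hy1 hy2 f2, π3] at he
      omega

theorem side_lt {G : SimpleGraph V} {A : Set V} (h : ∃ a b, G.Adj a b ∧ a ∉ A ∧ b ∉ A) :
    side G A < G := by
  refine lt_of_le_of_ne (fun a b hab => hab.1) ?_
  intro he
  obtain ⟨a, b, hab, ha, hb⟩ := h
  have : (side G A).Adj a b := by rw [he]; exact hab
  exact this.2.elim ha hb

theorem OneCut.compl {G : SimpleGraph V} {A : Set V} (h : OneCut G A) : OneCut G Aᶜ := by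
  intro a b a' b' hab ha hb hab' ha' hb'
  have := h b a b' a' hab.symm (not_not.1 hb) ha hab'.symm (not_not.1 hb') ha'
  exact ⟨this.2, this.1⟩

theorem good_of_cut {G : SimpleGraph V} (h3 : Deg3 G) {A : Set V} (hA : OneCut G A)
    (g1 : Good (side G A)) (g2 : Good (side G Aᶜ)) : Good G := by
  have key : ∀ B : Set V, OneCut G B → Good (side G B) → Good (side G Bᶜ) →
      ∀ r l, r ∈ B → G.Adj r l → (∀ z, G.Adj l z → z = r) →
      (∃ c, PV G G c ∧ c r l < 2) ∧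
      (∃ c, PV G G c ∧ 2 ≤ c r l ∧
        ∀ a b, G.Adj r a → G.Adj r b → a ≠ l → b ≠ l → a ≠ b → c r a < 2 ∨ c r b < 2) := by
    intro B hB g1 g2 r l hr hrl hl
    obtain ⟨⟨c1, p1, q1⟩, ⟨c2, p2, q2, r2⟩⟩ := g1.2 r l ⟨hrl, Or.inl hr⟩ fun z hz => hl z hz.1
    constructor
    · obtain ⟨c, pc, ec⟩ := glue h3 hB p1 g2
      exact ⟨c, pc, by rw [ec _ _ hr]; exact q1⟩
    · obtain ⟨c, pc, ec⟩ := glue h3 hB p2 g2
      refine ⟨c, pc, by rw [ec _ _ hr]; exact q2, fun a b ha hb => ?_⟩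
      rw [ec _ _ hr, ec _ _ hr]
      exact r2 a b ⟨ha, Or.inl hr⟩ ⟨hb, Or.inl hr⟩
  constructor
  · obtain ⟨c1, p1⟩ := g1.1
    obtain ⟨c, pc, -⟩ := glue h3 hA p1 g2
    exact ⟨c, pc⟩
  · intro r l
    by_cases hr : r ∈ A
    · exact key A hA g1 g2 r l hr
    · exact key Aᶜ hA.compl g2 (by rw [compl_compl]; exact g1) r l hr

theorem MS.of_cover {G : SimpleGraph V} (h3 : Deg3 G) {m : V → V} (h1 : ∀ x, m (m x) = x)
    (h2 : ∀ x, m x ≠ x → G.Adj x (m x)) (h4 : ∀ x, ThreeNb G x → m x ≠ x) : MS G m := by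
  refine ⟨h1, h2, fun a b c d hb hc hd => ?_⟩
  by_contra hne
  push Not at hne
  have := h3 a b c d (m a) hb.1 hc.1 hd.1 (h2 a (h4 a ⟨b, c, d, hb.1, hc.1, hd.1, hne⟩))
  have e1 := hb.2.1
  have e2 := hc.2.1
  have e3 := hd.2.1
  grind

theorem good_of_nocut [Fintype V] {G : SimpleGraph V} (h3 : Deg3 G)
    (hno : ∀ A : Set V, OneCut G A → (∃ a b, G.Adj a b ∧ a ∈ A ∧ b ∈ A) →
      ∀ a b, G.Adj a b → a ∈ A ∨ b ∈ A) : Good G := by
  have hcl : ∀ u v, G.Adj u v → ∀ A : Finset V, Closed G A → u ∉ A → ∀ a ∈ A, ∀ b, ¬ G.Adj a b := by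
    intro u v huv A hA hu a ha b hab
    rcases hno A (fun a b _ _ h1 h2 h3 => (h3 (hA _ _ h2 h1)).elim) ⟨a, b, hab, ha, hA _ _ ha hab⟩
      u v huv with h | h
    · exact hu h
    · exact hu (hA _ _ h huv.symm)
  -- a set of vertices of degree three with at most one edge leaving it meets every edge
  have small : ∀ K : Finset V, (∀ a ∈ K, ThreeNb G a) → K.Nonempty → ¬ 2 ≤ (out G K).card →
      OneCut G K ∧ ∀ a b, G.Adj a b → a ∈ K ∨ b ∈ K := by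
    intro K hK ⟨a, ha⟩ hlt
    have h1 : OneCut G K := by
      intro a b a' b' hab ha hb hab' ha' hb'
      have := Finset.card_le_one.1 (show (out G K).card ≤ 1 by omega) (a, b)
        ((mem_out G K _).2 ⟨ha, hb, hab⟩) (a', b') ((mem_out G K _).2 ⟨ha', hb', hab'⟩)
      exact Prod.mk.inj this
    refine ⟨h1, hno K h1 ?_⟩
    obtain ⟨b, c, d, hb, hc, -, hbc, -⟩ := hK a ha
    by_cases e : b ∈ K
    · exact ⟨a, b, hb, ha, e⟩
    · refine ⟨a, c, hc, ha, ?_⟩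
      by_contra e'
      exact hbc (h1 a b a c hb ha e hc ha e').2
  have hQ : ∀ r l, G.Adj r l → (∀ z, G.Adj l z → z = r) →
      (∃ c, PV G G c ∧ c r l < 2) ∧
      (∃ c, PV G G c ∧ 2 ≤ c r l ∧
        ∀ a b, G.Adj r a → G.Adj r b → a ≠ l → b ≠ l → a ≠ b → c r a < 2 ∨ c r b < 2) := by
    intro r l hrl hl
    obtain ⟨m0, i1, i2, i3, i4⟩ := exists_matching h3 {r, l} (by
        by_contra h
        obtain ⟨p, q, s, hp, hq, hs, h'⟩ := Finset.two_lt_card_iff.1 (not_le.1 h)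
        simp only [mem_out, Finset.mem_insert, Finset.mem_singleton, not_or] at hp hq hs
        have f : ∀ p : V × V, (p.1 = r ∨ p.1 = l) ∧ (¬ p.2 = r ∧ ¬ p.2 = l) ∧ G.Adj p.1 p.2 →
            p.1 = r := by
          rintro p ⟨h1 | h1, h2, h3⟩
          · exact h1
          · exact (h2.1 (hl _ (h1 ▸ h3))).elim
        have p1 := f p hp
        have q1 := f q hq
        have s1 := f s hs
        have := two_other h3 hrl p.2 q.2 s.2 ⟨p1 ▸ hp.2.2, hp.2.1.2⟩ ⟨q1 ▸ hq.2.2, hq.2.1.2⟩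
          ⟨s1 ▸ hs.2.2, hs.2.1.2⟩
        rcases this with e | e | e
        · exact h'.1 (Prod.ext (p1.trans q1.symm) e)
        · exact h'.2.1 (Prod.ext (p1.trans s1.symm) e)
        · exact h'.2.2 (Prod.ext (q1.trans s1.symm) e)) (by
        intro K hK hne hlt
        rcases (small K (fun a ha => (hK a ha).2) hne (by omega)).2 r l hrl with h | h
        · exact (hK r h).1 (by simp)
        · exact (hK l h).1 (by simp))
    have j1 := i3 r (by simp)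
    have j2 := i3 l (by simp)
    have hne := hrl.ne
    let m : V → V := fun z => if z = r then l else if z = l then r else m0 z
    have mr : m r = l := by simp [m]
    have ml : m l = r := by simp [m, hne.symm]
    have mz : ∀ z, z ≠ r → z ≠ l → m z = m0 z := by
      intro z h1 h2
      simp [m, h1, h2]
    have hm : MS G m := by
      refine MS.of_cover h3 (fun z => ?_) (fun z => ?_) fun z hz => ?_
      · by_cases h1 : z = r
        · rw [h1, mr, ml]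
        by_cases h2 : z = l
        · rw [h2, ml, mr]
        have e := i1 z
        rw [mz z h1 h2, mz _ (by grind) (by grind), e]
      · by_cases h1 : z = r
        · rw [h1, mr]
          exact fun _ => hrl
        by_cases h2 : z = l
        · rw [h2, ml]
          exact fun _ => hrl.symm
        rw [mz z h1 h2]
        exact i2 z
      · by_cases h1 : z = r
        · rw [h1, mr]
          exact hne.symm
        by_cases h2 : z = l
        · rw [h2, ml]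
          exact hne
        rw [mz z h1 h2]
        exact i4 z (by simp [h1, h2]) hz
    have hlF : ∀ w, ¬ (FF G m).Adj (m r) w := by
      intro w hw
      rw [mr] at hw
      exact hw.2.1 (ml.trans (hl w hw.1).symm)
    constructor
    · have := init_one hm hlF (hcl r l hrl)
      rwa [mr] at this
    · obtain ⟨c, p, q, s⟩ := init_two hm hlF (hcl r l hrl)
      rw [mr] at q
      refine ⟨c, p, q, fun a b ha hb hal hbl => s a b ?_ ?_⟩
      · exact (hm.cases ha).resolve_right fun h => hal (h.1.trans mr)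
      · exact (hm.cases hb).resolve_right fun h => hbl (h.1.trans mr)
  refine ⟨?_, hQ⟩
  by_cases hleaf : ∃ r l, G.Adj r l ∧ ∀ z, G.Adj l z → z = r
  · obtain ⟨r, l, h1, h2⟩ := hleaf
    obtain ⟨c, p, -⟩ := (hQ r l h1 h2).1
    exact ⟨c, p⟩
  by_cases hE : ∃ u v, G.Adj u v
  swap
  · exact ⟨fun _ _ => 0, fun _ _ => rfl, fun _ _ => by simp, fun a b _ h => (hE ⟨a, b, h⟩).elim,
      fun a b _ _ h => (hE ⟨a, b, h⟩).elim⟩
  obtain ⟨u, v, huv⟩ := hE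
  obtain ⟨m, i1, i2, -, i4⟩ := exists_matching h3 ∅ (by simp [out]) (by
    intro K hK hne hlt
    obtain ⟨s1, s2⟩ := small K (fun a ha => (hK a ha).2) hne (by omega)
    obtain ⟨p, hp⟩ := Finset.card_pos.1 (show 0 < (out G K).card by omega)
    rw [mem_out] at hp
    refine hleaf ⟨p.1, p.2, hp.2.2, fun z hz => ?_⟩
    have hzK : z ∈ K := (s2 _ _ hz).resolve_left hp.2.1
    exact (s1 z p.2 p.1 p.2 hz.symm hzK hp.2.1 hp.2.2 hp.1 hp.2.1).1)
  exact init_free (MS.of_cover h3 i1 i2 fun x => i4 x (by simp)) (hcl u v huv)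

theorem good [Fintype V] (G : SimpleGraph V) : Deg3 G → Good G := by
  induction G using WellFoundedLT.induction with
  | ind G ih =>
  intro h3
  by_cases hno : ∀ A : Set V, OneCut G A → (∃ a b, G.Adj a b ∧ a ∈ A ∧ b ∈ A) →
      ∀ a b, G.Adj a b → a ∈ A ∨ b ∈ A
  · exact good_of_nocut h3 hno
  · push Not at hno
    obtain ⟨A, hA, ⟨a, b, hab, ha, hb⟩, h2⟩ := hno
    have sub : ∀ B : Set V, Deg3 (side G B) :=
      fun B a b c d e hb hc hd he => h3 a b c d e hb.1 hc.1 hd.1 he.1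
    exact good_of_cut h3 hA (ih _ (side_lt h2) (sub A))
      (ih _ (side_lt ⟨a, b, hab, not_not.2 ha, not_not.2 hb⟩) (sub Aᶜ))

end Pool.Agent.MP_5d33c3_co.H12
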