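import Pool.Agent.MP_5d33c3_co.H12.Basic

namespace Pool.Agent.MP_5d33c3_co.H12

open Classical

variable {V : Type}

theorem nb_eq [Fintype V] {F : SimpleGraph V} (h2 : Deg2 F) {a b c : V} (hbc : b ≠ c)
    (hb : F.Adj a b) (hc : F.Adj a c) : F.neighborFinset a = {b, c} := by
  ext z
  simp only [SimpleGraph.mem_neighborFinset, Finset.mem_insert, Finset.mem_singleton]
  constructor
  · intro hz
    have := h2 a b c z hb hc hz
    grind
  · rintro (rfl | rfl) <;> assumption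

theorem swap_sum [Fintype V] (F : SimpleGraph V) (W : Finset V) (hW : Closed F W)
    (g : V → V → ℕ) :
    ∑ x ∈ W, ∑ y ∈ F.neighborFinset x, g x y = ∑ x ∈ W, ∑ y ∈ F.neighborFinset x, g y x := by
  refine Finset.sum_comm' ?_
  intro x y
  simp only [SimpleGraph.mem_neighborFinset]
  exact ⟨fun h => ⟨h.2.symm, hW _ _ h.1 h.2⟩, fun h => ⟨hW _ _ h.2 h.1, h.1.symm⟩⟩

theorem window [Fintype V] (F : SimpleGraph V) (h2 : Deg2 F) (W : Finset V) (hW : Closed F W)
    (hW2 : ∀ a ∈ W, TwoNb F a) (hodd : ¬ Even W.card) (θ φ : V → ℕ) :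
    ∃ x y x' y' d, x ∈ W ∧ F.Adj x y ∧ F.Adj x x' ∧ x' ≠ y ∧ F.Adj y y' ∧ y' ≠ x ∧ 2 ≤ d ∧ d < 6 ∧
      d ≠ φ x' ∧ d ≠ θ x ∧ d ≠ θ y ∧ d ≠ φ y' := by
  by_contra hcon
  apply hodd
  let p : V → ℕ := fun z => if φ z = 2 then 1 else 0
  let q : V → ℕ := fun z => if θ z = 2 then 1 else 0
  let g : V → V → ℕ := fun x y => q x + ∑ z ∈ (F.neighborFinset x).erase y, p z
  have other : ∀ x ∈ W, ∀ y, F.Adj x y → ∃ x', F.Adj x x' ∧ x' ≠ y ∧ g x y = q x + p x' := by
    intro x hx y hy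
    obtain ⟨b, c, hbc, hb, hc⟩ := hW2 x hx
    have : ∃ x', F.Adj x x' ∧ x' ≠ y := by
      by_cases h : b = y
      · exact ⟨c, hc, fun e => hbc (h.trans e.symm)⟩
      · exact ⟨b, hb, h⟩
    obtain ⟨x', hx', hne⟩ := this
    refine ⟨x', hx', hne, ?_⟩
    simp only [g]
    rw [nb_eq h2 hne.symm hy hx', Finset.erase_insert (by simpa using hne.symm)]
    simp
  have h1 : ∀ x ∈ W, ∀ y ∈ F.neighborFinset x, g x y + g y x = 1 := by
    intro x hx y hy
    rw [SimpleGraph.mem_neighborFinset] at hy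
    obtain ⟨x', hx', hne, e1⟩ := other x hx y hy
    obtain ⟨y', hy', hne', e2⟩ := other y (hW _ _ hx hy) x hy.symm
    rw [e1, e2]
    have hd : ∀ d, 2 ≤ d → d < 6 → d = φ x' ∨ d = θ x ∨ d = θ y ∨ d = φ y' := by
      intro d d1 d2
      by_contra hh
      push Not at hh
      exact hcon ⟨x, y, x', y', d, hx, hy, hx', hne, hy', hne', d1, d2, hh⟩
    have a2 := hd 2 (by omega) (by omega)
    have a3 := hd 3 (by omega) (by omega)
    have a4 := hd 4 (by omega) (by omega)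
    have a5 := hd 5 (by omega) (by omega)
    simp only [p, q]
    split_ifs <;> omega
  have card2 : ∀ x ∈ W, (F.neighborFinset x).card = 2 := by
    intro x hx
    obtain ⟨b, c, hbc, hb, hc⟩ := hW2 x hx
    rw [nb_eq h2 hbc hb hc, Finset.card_pair hbc]
  have s1 : 2 * ∑ x ∈ W, ∑ y ∈ F.neighborFinset x, g x y = 2 * W.card := by
    rw [two_mul]
    nth_rewrite 2 [swap_sum F W hW g]
    rw [← Finset.sum_add_distrib]
    rw [Finset.card_eq_sum_ones, Finset.mul_sum]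
    refine Finset.sum_congr rfl fun x hx => ?_
    rw [← Finset.sum_add_distrib, Finset.sum_congr rfl (h1 x hx)]
    simp [card2 x hx]
  have s2 : ∑ x ∈ W, ∑ y ∈ F.neighborFinset x, g x y =
      ∑ x ∈ W, 2 * q x + ∑ x ∈ W, ∑ y ∈ F.neighborFinset x, p y := by
    rw [← Finset.sum_add_distrib]
    refine Finset.sum_congr rfl fun x hx => ?_
    obtain ⟨b, c, hbc, hb, hc⟩ := hW2 x hx
    simp only [g]
    rw [nb_eq h2 hbc hb hc, Finset.sum_pair hbc, Finset.sum_pair hbc,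
      Finset.erase_insert (by simpa using hbc), Finset.pair_comm b c,
      Finset.erase_insert (by simpa using hbc.symm)]
    simp only [Finset.sum_singleton]
    omega
  have s3 : ∑ x ∈ W, ∑ y ∈ F.neighborFinset x, p y = ∑ x ∈ W, 2 * p x := by
    rw [swap_sum F W hW (fun _ y => p y)]
    refine Finset.sum_congr rfl fun x hx => ?_
    simp [card2 x hx]
  rw [s3, ← Finset.mul_sum, ← Finset.mul_sum] at s2
  refine ⟨∑ x ∈ W, q x + ∑ x ∈ W, p x, ?_⟩
  omega

end Pool.Agent.MP_5d33c3_co.H12
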